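import Mathlib

set_option autoImplicit false

open Filter Topology Finset

namespace Pool.Agent.W738.UN

/-- the character -/
noncomputable def ee (n : ℤ) (x : ℝ) : ℂ :=
  Complex.exp (2 * (Real.pi : ℂ) * Complex.I * (n : ℂ) * (x : ℂ))

lemma ee_cont (n : ℤ) : Continuous (ee n) := by
  unfold ee
  fun_prop

lemma ee_add (n : ℤ) (x y : ℝ) : ee n (x + y) = ee n x * ee n y := by
  unfold ee
  rw [← Complex.exp_add]
  congr 1
  push_cast
  ring

lemma ee_sub (n m : ℤ) (x : ℝ) : ee (n - m) x = ee n x * ee (-m) x := by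
  unfold ee
  rw [← Complex.exp_add]
  congr 1
  push_cast
  ring

lemma norm_ee (n : ℤ) (x : ℝ) : ‖ee n x‖ = 1 := by
  unfold ee
  have : 2 * (Real.pi : ℂ) * Complex.I * (n : ℂ) * (x : ℂ) = ((2 * Real.pi * n * x : ℝ) : ℂ) * Complex.I := by
    push_cast
    ring
  rw [this, Complex.norm_exp_ofReal_mul_I]

lemma ee_zero (x : ℝ) : ee 0 x = 1 := by simp [ee]

lemma ee_cos (n : ℤ) (h : ℝ) : ee n h + ee n (-h) = 2 - 4 * ((Real.sin (Real.pi * n * h) : ℝ) : ℂ) ^ 2 := by
  have h1 : ee n h = Complex.exp (((2 * (Real.pi * n * h) : ℝ) : ℂ) * Complex.I) := by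
    unfold ee; congr 1; push_cast; ring
  have h2 : ee n (-h) = Complex.exp (-(((2 * (Real.pi * n * h) : ℝ) : ℂ) * Complex.I)) := by
    unfold ee; congr 1; push_cast; ring
  have h3 : ee n h + ee n (-h) = 2 * Complex.cos ((2 * (Real.pi * n * h) : ℝ) : ℂ) := by
    rw [h1, h2, Complex.cos, neg_mul]
    ring
  rw [h3, ← Complex.ofReal_cos, Real.cos_two_mul, Real.cos_sq']
  push_cast
  ring

/-- `sinc²` -/
noncomputable def sc (t : ℝ) : ℝ := (Real.sinc t) ^ 2

lemma sc_zero : sc 0 = 1 := by simp [sc]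

lemma sc_cont : Continuous sc := by
  unfold sc
  exact Real.continuous_sinc.pow 2

lemma sc_nonneg (t : ℝ) : 0 ≤ sc t := by unfold sc; positivity

lemma sc_le_one (t : ℝ) : sc t ≤ 1 := by
  unfold sc
  have h1 := Real.sinc_le_one t
  have h2 := Real.neg_one_le_sinc t
  nlinarith

lemma sc_neg (t : ℝ) : sc (-t) = sc t := by
  unfold sc
  rw [Real.sinc_neg]

lemma sc_of_ne {t : ℝ} (ht : t ≠ 0) : sc t = (Real.sin t / t) ^ 2 := by
  unfold sc
  rw [Real.sinc_of_ne_zero ht]

lemma sc_le (t : ℝ) (ht : t ≠ 0) : sc t ≤ 1 / t ^ 2 := by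
  rw [sc_of_ne ht, div_pow]
  apply div_le_div_of_nonneg_right _ (by positivity)
  exact Real.sin_sq_le_one t

lemma sc_hasDeriv {t : ℝ} (ht : 0 < t) :
    HasDerivAt sc (2 * (Real.sin t / t) * ((Real.cos t * t - Real.sin t) / t ^ 2)) t := by
  have h1 : HasDerivAt (fun t : ℝ => Real.sin t / t) ((Real.cos t * t - Real.sin t * 1) / t ^ 2) t :=
    (Real.hasDerivAt_sin t).div (hasDerivAt_id t) ht.ne'
  have h2 := h1.pow 2
  have h3 : sc =ᶠ[𝓝 t] fun t : ℝ => (Real.sin t / t) ^ 2 := by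
    filter_upwards [lt_mem_nhds ht] with s hs
    exact sc_of_ne hs.ne'
  refine (h2.congr_of_eventuallyEq h3).congr_deriv ?_
  simp only [Nat.cast_ofNat, mul_one]
  ring

lemma sc_deriv_bound {t : ℝ} (ht : 0 < t) :
    |2 * (Real.sin t / t) * ((Real.cos t * t - Real.sin t) / t ^ 2)| ≤ 8 / (1 + t ^ 2) := by
  rw [abs_mul, abs_mul, abs_div, abs_div, abs_of_pos (by norm_num : (0:ℝ) < 2), abs_of_pos ht,
    abs_of_pos (by positivity : (0:ℝ) < t ^ 2)]
  rcases le_total t 1 with h1 | h1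
  · have hs : |Real.sin t| / t ≤ 1 := by
      rw [div_le_one ht, abs_of_nonneg (Real.sin_nonneg_of_nonneg_of_le_pi ht.le (by linarith [Real.pi_gt_three]))]
      exact Real.sin_le ht.le
    have hs0 : 0 ≤ |Real.sin t| / t := by positivity
    have hc : |Real.cos t * t - Real.sin t| ≤ t ^ 3 / 2 := by
      have a1 := Real.one_sub_sq_div_two_le_cos (x := t)
      have a2 := Real.sin_le ht.le
      have a3 := Real.sin_gt_sub_cube ht
      have a4 := Real.cos_le_one t
      rw [abs_le]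
      constructor
      · nlinarith
      · have : t ^ 3 > 0 := by positivity
        nlinarith
    have hc2 : |Real.cos t * t - Real.sin t| / t ^ 2 ≤ 1 / 2 := by
      rw [div_le_iff₀ (by positivity)]
      refine hc.trans ?_
      have : t ^ 3 ≤ t ^ 2 := by
        have : t ^ 3 = t ^ 2 * t := by ring
        rw [this]
        nlinarith [sq_nonneg t]
      linarith
    have hc0 : 0 ≤ |Real.cos t * t - Real.sin t| / t ^ 2 := by positivity
    have h8 : 1 ≤ 8 / (1 + t ^ 2) := by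
      rw [le_div_iff₀ (by positivity)]
      nlinarith
    calc 2 * (|Real.sin t| / t) * (|Real.cos t * t - Real.sin t| / t ^ 2) ≤ 2 * 1 * (1 / 2) := by
          apply mul_le_mul _ hc2 hc0 (by norm_num)
          linarith
      _ ≤ 8 / (1 + t ^ 2) := by linarith
  · have hs : |Real.sin t| / t ≤ 1 / t := by
      apply div_le_div_of_nonneg_right (Real.abs_sin_le_one t) ht.le
    have hs0 : 0 ≤ |Real.sin t| / t := by positivity
    have hc : |Real.cos t * t - Real.sin t| ≤ 2 * t := by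
      have a1 := abs_sub (Real.cos t * t) (Real.sin t)
      rw [abs_mul, abs_of_pos ht] at a1
      have a2 := Real.abs_cos_le_one t
      have a3 := Real.abs_sin_le_one t
      nlinarith
    have hc2 : |Real.cos t * t - Real.sin t| / t ^ 2 ≤ 2 / t := by
      rw [div_le_div_iff₀ (by positivity) ht]
      nlinarith
    have hc0 : 0 ≤ |Real.cos t * t - Real.sin t| / t ^ 2 := by positivity
    calc 2 * (|Real.sin t| / t) * (|Real.cos t * t - Real.sin t| / t ^ 2) ≤ 2 * (1 / t) * (2 / t) := by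
          apply mul_le_mul _ hc2 hc0 (by positivity)
          linarith
      _ = 4 / t ^ 2 := by field_simp; ring
      _ ≤ 8 / (1 + t ^ 2) := by
          rw [div_le_div_iff₀ (by positivity) (by positivity)]
          nlinarith

lemma sc_var {a b : ℝ} (ha : 0 ≤ a) (hab : a ≤ b) :
    |sc a - sc b| ≤ 8 * (Real.arctan b - Real.arctan a) := by
  have hd : ∀ t ∈ interior (Set.Ici (0:ℝ)), HasDerivAt sc (2 * (Real.sin t / t) * ((Real.cos t * t - Real.sin t) / t ^ 2)) t := by
    intro t ht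
    rw [interior_Ici] at ht
    exact sc_hasDeriv ht
  have hat : ∀ t : ℝ, HasDerivAt (fun t => 8 * Real.arctan t) (8 * (1 / (1 + t ^ 2))) t := fun t =>
    (Real.hasDerivAt_arctan t).const_mul 8
  have hcat : Continuous (fun t : ℝ => 8 * Real.arctan t) := by fun_prop
  have m1 : MonotoneOn (fun t => 8 * Real.arctan t + sc t) (Set.Ici 0) := by
    apply monotoneOn_of_deriv_nonneg (convex_Ici 0)
    · exact (hcat.add sc_cont).continuousOn
    · intro t ht
      exact ((hat t).add (hd t ht)).differentiableAt.differentiableWithinAt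
    · intro t ht
      rw [show (fun t => 8 * Real.arctan t + sc t) = (fun t => 8 * Real.arctan t) + sc from rfl,
        ((hat t).add (hd t ht)).deriv]
      rw [interior_Ici] at ht
      have := abs_le.mp (sc_deriv_bound ht)
      have h2 : 8 * (1 / (1 + t ^ 2)) = 8 / (1 + t ^ 2) := by ring
      linarith [this.1]
  have m2 : MonotoneOn (fun t => 8 * Real.arctan t - sc t) (Set.Ici 0) := by
    apply monotoneOn_of_deriv_nonneg (convex_Ici 0)
    · exact (hcat.sub sc_cont).continuousOn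
    · intro t ht
      exact ((hat t).sub (hd t ht)).differentiableAt.differentiableWithinAt
    · intro t ht
      rw [show (fun t => 8 * Real.arctan t - sc t) = (fun t => 8 * Real.arctan t) - sc from rfl,
        ((hat t).sub (hd t ht)).deriv]
      rw [interior_Ici] at ht
      have := abs_le.mp (sc_deriv_bound ht)
      have h2 : 8 * (1 / (1 + t ^ 2)) = 8 / (1 + t ^ 2) := by ring
      linarith [this.2]
  have e1 := m1 (Set.mem_Ici.mpr ha) (Set.mem_Ici.mpr (ha.trans hab)) hab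
  have e2 := m2 (Set.mem_Ici.mpr ha) (Set.mem_Ici.mpr (ha.trans hab)) hab
  simp only at e1 e2
  rw [abs_le]
  constructor <;> linarith

lemma sc_totvar (θ : ℝ) (hθ : 0 ≤ θ) (N : ℕ) :
    ∑ n ∈ range N, |sc (n * θ) - sc ((n + 1 : ℕ) * θ)| ≤ 4 * Real.pi := by
  have h1 : ∀ N : ℕ, ∑ n ∈ range N, |sc (n * θ) - sc ((n + 1 : ℕ) * θ)| ≤ 8 * Real.arctan (N * θ) := by
    intro N
    induction N with
    | zero => simp
    | succ N ih =>
      rw [Finset.sum_range_succ]
      have := sc_var (a := N * θ) (b := (N + 1 : ℕ) * θ) (by positivity) (by push_cast; nlinarith)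
      linarith
  have h2 := h1 N
  have h3 := Real.arctan_lt_pi_div_two (N * θ)
  linarith

/-- symmetric partial sums -/
noncomputable def SS (c : ℤ → ℂ) (x : ℝ) (N : ℕ) : ℂ := ∑ n ∈ Finset.Icc (-(N : ℤ)) (N : ℤ), c n * ee n x

lemma Icc_succ (N : ℕ) : Finset.Icc (-((N + 1 : ℕ) : ℤ)) ((N + 1 : ℕ) : ℤ) =
    insert ((N + 1 : ℕ) : ℤ) (insert (-((N + 1 : ℕ) : ℤ)) (Finset.Icc (-(N : ℤ)) (N : ℤ))) := by
  ext z
  simp only [mem_Icc, mem_insert]
  push_cast
  omega

lemma sum_Icc_succ (f : ℤ → ℂ) (N : ℕ) : ∑ n ∈ Finset.Icc (-((N + 1 : ℕ) : ℤ)) ((N + 1 : ℕ) : ℤ), f n =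
    ∑ n ∈ Finset.Icc (-(N : ℤ)) (N : ℤ), f n + (f ((N + 1 : ℕ) : ℤ) + f (-((N + 1 : ℕ) : ℤ))) := by
  rw [Icc_succ, Finset.sum_insert, Finset.sum_insert]
  · ring
  · simp only [mem_Icc]
    push_cast
    omega
  · simp only [mem_insert, mem_Icc]
    push_cast
    omega

lemma summable_aux (c : ℤ → ℂ) (B : ℝ) (hB : ∀ n, ‖c n‖ ≤ B) (x h : ℝ) (hh : h ≠ 0) :
    Summable (fun n : ℤ => c n * ((sc (Real.pi * n * h) : ℝ) : ℂ) * ee n x) := by
  have hB0 : 0 ≤ B := (norm_nonneg _).trans (hB 0)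
  have hs : Summable (fun n : ℤ => (B / (Real.pi * h) ^ 2) * (1 / (n : ℝ) ^ 2)) :=
    (Real.summable_one_div_int_pow.mpr (by norm_num)).mul_left _
  apply Summable.of_norm_bounded_eventually hs
  have : {n : ℤ | ¬ ‖c n * ((sc (Real.pi * n * h) : ℝ) : ℂ) * ee n x‖ ≤ (B / (Real.pi * h) ^ 2) * (1 / (n : ℝ) ^ 2)} ⊆ {0} := by
    intro n hn
    rw [Set.mem_singleton_iff]
    by_contra hn0
    apply hn
    have hn1 : (n : ℝ) ≠ 0 := by exact_mod_cast hn0
    rw [norm_mul, norm_mul, norm_ee, mul_one, Complex.norm_real, Real.norm_eq_abs, abs_of_nonneg (sc_nonneg _)]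
    have ht : Real.pi * n * h ≠ 0 := by
      have := Real.pi_ne_zero
      positivity
    calc ‖c n‖ * sc (Real.pi * n * h) ≤ B * (1 / (Real.pi * n * h) ^ 2) :=
          mul_le_mul (hB n) (sc_le _ ht) (sc_nonneg _) hB0
      _ = _ := by
          have := Real.pi_ne_zero
          field_simp
  exact (Set.finite_singleton 0).subset this

/-- Riemann's first theorem -/
lemma riemann (c : ℤ → ℂ) (B : ℝ) (hB : ∀ n, ‖c n‖ ≤ B) (x : ℝ) (hS : Tendsto (SS c x) atTop (𝓝 0)) :
    Tendsto (fun h : ℝ => ∑' n : ℤ, c n * ((sc (Real.pi * n * h) : ℝ) : ℂ) * ee n x) (𝓝[>] 0) (𝓝 0) := by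
  rw [Metric.tendsto_nhds]
  intro ε hε
  have hV : 0 < 4 * Real.pi + 1 := by positivity
  set δ := ε / 4 / (4 * Real.pi + 1) with hδ
  have hδ0 : 0 < δ := by positivity
  obtain ⟨n₀, hn₀⟩ := (Metric.tendsto_atTop.mp hS) δ hδ0
  -- the finite part
  have hfin : Tendsto (fun h : ℝ => ∑ n ∈ range n₀, ‖SS c x n‖ * |sc (n * (Real.pi * h)) - sc ((n + 1 : ℕ) * (Real.pi * h))|)
      (𝓝[>] 0) (𝓝 0) := by
    have hcont : Continuous (fun h : ℝ => ∑ n ∈ range n₀, ‖SS c x n‖ * |sc (n * (Real.pi * h)) - sc ((n + 1 : ℕ) * (Real.pi * h))|) := by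
      apply continuous_finsetSum
      intro n _
      apply Continuous.mul continuous_const
      apply Continuous.abs
      exact (sc_cont.comp (by fun_prop)).sub (sc_cont.comp (by fun_prop))
    have := hcont.tendsto 0
    simp only [mul_zero, sub_self, abs_zero, sum_const_zero] at this
    exact this.mono_left nhdsWithin_le_nhds
  have hev := (Metric.tendsto_nhds.mp hfin) (ε / 4) (by positivity)
  filter_upwards [hev, self_mem_nhdsWithin] with h hh hpos
  rw [Set.mem_Ioi] at hpos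
  rw [dist_zero_right] at hh ⊢
  have hfn : ∑ n ∈ range n₀, ‖SS c x n‖ * |sc (n * (Real.pi * h)) - sc ((n + 1 : ℕ) * (Real.pi * h))| < ε / 4 :=
    (le_abs_self _).trans_lt hh
  -- summation by parts
  have hparts : ∀ N : ℕ, ∑ n ∈ Finset.Icc (-(N : ℤ)) (N : ℤ), c n * ((sc (Real.pi * n * h) : ℝ) : ℂ) * ee n x =
      SS c x N * ((sc (N * (Real.pi * h)) : ℝ) : ℂ) +
      ∑ n ∈ range N, SS c x n * (((sc (n * (Real.pi * h)) - sc ((n + 1 : ℕ) * (Real.pi * h))) : ℝ) : ℂ) := by
    intro N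
    induction N with
    | zero =>
      simp [SS]
      ring
    | succ N ih =>
      rw [sum_Icc_succ, ih, Finset.sum_range_succ]
      have e1 : SS c x (N + 1) = SS c x N + (c ((N + 1 : ℕ) : ℤ) * ee ((N + 1 : ℕ) : ℤ) x +
          c (-((N + 1 : ℕ) : ℤ)) * ee (-((N + 1 : ℕ) : ℤ)) x) := by
        unfold SS
        rw [sum_Icc_succ]
      have e2 : sc (Real.pi * (((N + 1 : ℕ) : ℤ) : ℝ) * h) = sc ((N + 1 : ℕ) * (Real.pi * h)) := by
        congr 1; push_cast; ring
      have e3 : sc (Real.pi * ((-((N + 1 : ℕ) : ℤ) : ℤ) : ℝ) * h) = sc ((N + 1 : ℕ) * (Real.pi * h)) := by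
        rw [← sc_neg]; congr 1; push_cast; ring
      rw [e1, e2, e3]
      push_cast
      ring
  have hsum := (summable_aux c B hB x h hpos.ne').hasSum
  have hlim : Tendsto (fun N : ℕ => ∑ n ∈ Finset.Icc (-(N : ℤ)) (N : ℤ), c n * ((sc (Real.pi * n * h) : ℝ) : ℂ) * ee n x)
      atTop (𝓝 (∑' n : ℤ, c n * ((sc (Real.pi * n * h) : ℝ) : ℂ) * ee n x)) := by
    apply hsum.comp
    apply Monotone.tendsto_atTop_finset
    · intro a b hab
      apply Finset.Icc_subset_Icc <;> (simp only [neg_le_neg_iff, Nat.cast_le]; exact hab)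
    · intro z
      refine ⟨z.natAbs, ?_⟩
      rw [mem_Icc]
      omega
  have hbound : ∀ᶠ N : ℕ in atTop, ‖∑ n ∈ Finset.Icc (-(N : ℤ)) (N : ℤ), c n * ((sc (Real.pi * n * h) : ℝ) : ℂ) * ee n x‖ ≤ 3 * ε / 4 := by
    filter_upwards [eventually_ge_atTop n₀] with N hN
    rw [hparts N]
    refine (norm_add_le _ _).trans ?_
    have b1 : ‖SS c x N * ((sc (N * (Real.pi * h)) : ℝ) : ℂ)‖ ≤ ε / 4 := by
      rw [norm_mul, Complex.norm_real, Real.norm_eq_abs, abs_of_nonneg (sc_nonneg _)]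
      have h1 := hn₀ N hN
      rw [dist_zero_right] at h1
      have h2 : δ ≤ ε / 4 := by
        rw [hδ]
        apply div_le_self (by positivity)
        linarith [Real.pi_pos]
      calc ‖SS c x N‖ * sc (N * (Real.pi * h)) ≤ ‖SS c x N‖ * 1 :=
            mul_le_mul_of_nonneg_left (sc_le_one _) (norm_nonneg _)
        _ ≤ ε / 4 := by linarith
    have b2 : ‖∑ n ∈ range N, SS c x n * (((sc (n * (Real.pi * h)) - sc ((n + 1 : ℕ) * (Real.pi * h))) : ℝ) : ℂ)‖ ≤ ε / 4 + ε / 4 := by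
      refine (norm_sum_le _ _).trans ?_
      have e1 : ∀ n ∈ range N, ‖SS c x n * (((sc (n * (Real.pi * h)) - sc ((n + 1 : ℕ) * (Real.pi * h))) : ℝ) : ℂ)‖ ≤
          (if n < n₀ then ‖SS c x n‖ * |sc (n * (Real.pi * h)) - sc ((n + 1 : ℕ) * (Real.pi * h))| else 0) +
          δ * |sc (n * (Real.pi * h)) - sc ((n + 1 : ℕ) * (Real.pi * h))| := by
        intro n _
        rw [norm_mul, Complex.norm_real, Real.norm_eq_abs]
        split_ifs with hn
        · have : 0 ≤ δ * |sc (n * (Real.pi * h)) - sc ((n + 1 : ℕ) * (Real.pi * h))| := by positivity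
          linarith
        · have h1 := hn₀ n (by omega)
          rw [dist_zero_right] at h1
          have := mul_le_mul_of_nonneg_right h1.le (abs_nonneg (sc (n * (Real.pi * h)) - sc ((n + 1 : ℕ) * (Real.pi * h))))
          linarith
      refine (Finset.sum_le_sum e1).trans ?_
      rw [Finset.sum_add_distrib, ← Finset.mul_sum]
      apply add_le_add
      · rw [← Finset.sum_filter]
        have : (range N).filter (fun n => n < n₀) = range n₀ := by
          ext n; simp only [mem_filter, mem_range]; omega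
        rw [this]
        exact hfn.le
      · have h1 := sc_totvar (Real.pi * h) (by positivity) N
        calc δ * ∑ n ∈ range N, |sc (n * (Real.pi * h)) - sc ((n + 1 : ℕ) * (Real.pi * h))|
            ≤ δ * (4 * Real.pi + 1) := by
              apply mul_le_mul_of_nonneg_left _ hδ0.le
              linarith
          _ = ε / 4 := by rw [hδ]; field_simp
    linarith
  have := le_of_tendsto hlim.norm hbound
  linarith

/-- Riemann's function -/
noncomputable def FF (c : ℤ → ℂ) (x : ℝ) : ℂ :=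
  c 0 * (x : ℂ) ^ 2 / 2 - ∑' n : ℤ, c n / (4 * (Real.pi : ℂ) ^ 2 * (n : ℂ) ^ 2) * ee n x

lemma FF_bound (c : ℤ → ℂ) (B : ℝ) (hB : ∀ n, ‖c n‖ ≤ B) (x : ℝ) (n : ℤ) :
    ‖c n / (4 * (Real.pi : ℂ) ^ 2 * (n : ℂ) ^ 2) * ee n x‖ ≤ (B / (4 * Real.pi ^ 2)) * (1 / (n : ℝ) ^ 2) := by
  have hB0 : 0 ≤ B := (norm_nonneg _).trans (hB 0)
  rw [norm_mul, norm_ee, mul_one, norm_div, norm_mul, norm_mul, norm_pow, norm_pow, Complex.norm_real,
    Complex.norm_intCast, Real.norm_eq_abs, abs_of_pos Real.pi_pos, sq_abs]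
  have : ‖(4 : ℂ)‖ = 4 := by simp
  rw [this, div_mul_div_comm, mul_one]
  exact div_le_div_of_nonneg_right (hB n) (by positivity)

lemma FF_summable (c : ℤ → ℂ) (B : ℝ) (hB : ∀ n, ‖c n‖ ≤ B) (x : ℝ) :
    Summable (fun n : ℤ => c n / (4 * (Real.pi : ℂ) ^ 2 * (n : ℂ) ^ 2) * ee n x) :=
  Summable.of_norm_bounded ((Real.summable_one_div_int_pow.mpr (by norm_num)).mul_left _) (FF_bound c B hB x)

lemma FF_cont (c : ℤ → ℂ) (B : ℝ) (hB : ∀ n, ‖c n‖ ≤ B) : Continuous (FF c) := by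
  unfold FF
  apply Continuous.sub
  · fun_prop
  · have hs : Summable (fun n : ℤ => (B / (4 * Real.pi ^ 2)) * (1 / (n : ℝ) ^ 2)) :=
      (Real.summable_one_div_int_pow.mpr (by norm_num)).mul_left _
    exact continuous_tsum (fun n => continuous_const.mul (ee_cont n)) hs
      (fun n x => FF_bound c B hB x n)

lemma FF_diff (c : ℤ → ℂ) (B : ℝ) (hB : ∀ n, ‖c n‖ ≤ B) (x h : ℝ) (hh : h ≠ 0) :
    FF c (x + h) + FF c (x - h) - 2 * FF c x =
      (h : ℂ) ^ 2 * ∑' n : ℤ, c n * ((sc (Real.pi * n * h) : ℝ) : ℂ) * ee n x := by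
  have s1 := FF_summable c B hB (x + h)
  have s2 := FF_summable c B hB (x - h)
  have s3 := FF_summable c B hB x
  unfold FF
  have e0 : c 0 * ((x + h : ℝ) : ℂ) ^ 2 / 2 + c 0 * ((x - h : ℝ) : ℂ) ^ 2 / 2 - 2 * (c 0 * (x : ℂ) ^ 2 / 2) =
      ∑' n : ℤ, (if n = 0 then c 0 * (h : ℂ) ^ 2 else 0) := by
    rw [tsum_ite_eq]
    push_cast
    ring
  have s0 : Summable (fun n : ℤ => if n = 0 then c 0 * (h : ℂ) ^ 2 else 0) :=
    (hasSum_ite_eq (0 : ℤ) (c 0 * (h : ℂ) ^ 2)).summable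
  calc _ = (c 0 * ((x + h : ℝ) : ℂ) ^ 2 / 2 + c 0 * ((x - h : ℝ) : ℂ) ^ 2 / 2 - 2 * (c 0 * (x : ℂ) ^ 2 / 2))
      - (∑' n : ℤ, c n / (4 * (Real.pi : ℂ) ^ 2 * (n : ℂ) ^ 2) * ee n (x + h)
        + ∑' n : ℤ, c n / (4 * (Real.pi : ℂ) ^ 2 * (n : ℂ) ^ 2) * ee n (x - h)
        - 2 * ∑' n : ℤ, c n / (4 * (Real.pi : ℂ) ^ 2 * (n : ℂ) ^ 2) * ee n x) := by ring
    _ = ∑' n : ℤ, ((if n = 0 then c 0 * (h : ℂ) ^ 2 else 0) -
        (c n / (4 * (Real.pi : ℂ) ^ 2 * (n : ℂ) ^ 2) * ee n (x + h) +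
          c n / (4 * (Real.pi : ℂ) ^ 2 * (n : ℂ) ^ 2) * ee n (x - h) -
          2 * (c n / (4 * (Real.pi : ℂ) ^ 2 * (n : ℂ) ^ 2) * ee n x))) := by
        rw [e0, ← tsum_mul_left, ← s1.tsum_add s2, ← (s1.add s2).tsum_sub (s3.mul_left 2),
          ← s0.tsum_sub ((s1.add s2).sub (s3.mul_left 2))]
    _ = ∑' n : ℤ, (h : ℂ) ^ 2 * (c n * ((sc (Real.pi * n * h) : ℝ) : ℂ) * ee n x) := by
        apply tsum_congr
        intro n
        by_cases hn : n = 0
        · subst hn
          simp only [if_true, Int.cast_zero, ee_zero, mul_zero, zero_mul, sc_zero]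
          simp
          ring
        · rw [if_neg hn]
          have hn1 : (n : ℝ) ≠ 0 := by exact_mod_cast hn
          have hn2 : (n : ℂ) ≠ 0 := by exact_mod_cast hn
          have hp := Real.pi_ne_zero
          have hp2 : (Real.pi : ℂ) ≠ 0 := by exact_mod_cast hp
          have hh2 : (h : ℂ) ≠ 0 := by exact_mod_cast hh
          have ht : Real.pi * n * h ≠ 0 := by positivity
          have hx : x - h = x + (-h) := by ring
          rw [hx, ee_add, ee_add, sc_of_ne ht]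
          have hcs := ee_cos n h
          have : ee n (-h) = 2 - 4 * ((Real.sin (Real.pi * n * h) : ℝ) : ℂ) ^ 2 - ee n h := by
            rw [← hcs]; ring
          rw [this]
          push_cast
          field_simp
          ring
    _ = _ := by rw [tsum_mul_left]

/-- Schwarz's lemma, one sided -/
lemma schwarz_real (G : ℝ → ℝ) (hG : Continuous G) (a b : ℝ) (hab : a < b)
    (h : ∀ x ∈ Set.Ioo a b, Tendsto (fun h : ℝ => (G (x + h) + G (x - h) - 2 * G x) / h ^ 2) (𝓝[>] 0) (𝓝 0)) :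
    0 ≤ G a + G b - 2 * G ((a + b) / 2) := by
  by_contra hE
  push Not at hE
  set E := G a + G b - 2 * G ((a + b) / 2) with hEd
  have hba : 0 < b - a := by linarith
  set κ := -E / (b - a) ^ 2 with hκ
  have hκ0 : 0 < κ := by
    rw [hκ]
    apply div_pos (by linarith) (by positivity)
  set W : ℝ → ℝ := fun x => G x - (G a + (G b - G a) / (b - a) * (x - a)) - κ * ((x - a) * (b - x)) with hW
  have hWc : Continuous W := by
    rw [hW]
    fun_prop
  obtain ⟨x₁, hx₁, hmax⟩ := isCompact_Icc.exists_isMaxOn (Set.nonempty_Icc.mpr hab.le) hWc.continuousOn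
  have hmid : W ((a + b) / 2) = -E / 4 := by
    rw [hW]
    simp only
    have e1 : (G b - G a) / (b - a) * ((a + b) / 2 - a) = (G b - G a) / 2 := by
      field_simp
      ring
    have e2 : κ * (((a + b) / 2 - a) * (b - (a + b) / 2)) = -E / 4 := by
      rw [hκ]
      field_simp
      ring
    rw [e1, e2, hEd]
    ring
  have hWa : W a = 0 := by rw [hW]; simp
  have hWb : W b = 0 := by
    rw [hW]
    simp only
    have e1 : (G b - G a) / (b - a) * (b - a) = G b - G a := by field_simp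
    rw [e1]
    ring
  have hpos : 0 < W x₁ := by
    have h1 : W ((a + b) / 2) ≤ W x₁ := hmax (by constructor <;> linarith)
    rw [hmid] at h1
    linarith
  have hxa : x₁ ≠ a := by
    rintro rfl
    rw [hWa] at hpos
    exact lt_irrefl _ hpos
  have hxb : x₁ ≠ b := by
    rintro rfl
    rw [hWb] at hpos
    exact lt_irrefl _ hpos
  have hx1a : a < x₁ := lt_of_le_of_ne hx₁.1 (Ne.symm hxa)
  have hx1b : x₁ < b := lt_of_le_of_ne hx₁.2 hxb
  have hlim := (h x₁ ⟨hx1a, hx1b⟩).add_const (2 * κ)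
  rw [zero_add] at hlim
  have hle : ∀ᶠ t : ℝ in 𝓝[>] 0, (G (x₁ + t) + G (x₁ - t) - 2 * G x₁) / t ^ 2 + 2 * κ ≤ 0 := by
    have hsm : ∀ᶠ t : ℝ in 𝓝[>] 0, t < min (x₁ - a) (b - x₁) := by
      apply nhdsWithin_le_nhds
      exact gt_mem_nhds (lt_min (by linarith) (by linarith))
    filter_upwards [hsm, self_mem_nhdsWithin] with t ht ht0
    rw [Set.mem_Ioi] at ht0
    have ht1 := lt_of_lt_of_le ht (min_le_left _ _)
    have ht2 := lt_of_lt_of_le ht (min_le_right _ _)
    have m1 : W (x₁ + t) ≤ W x₁ := hmax (by constructor <;> linarith)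
    have m2 : W (x₁ - t) ≤ W x₁ := hmax (by constructor <;> linarith)
    have e : W (x₁ + t) + W (x₁ - t) - 2 * W x₁ = G (x₁ + t) + G (x₁ - t) - 2 * G x₁ + 2 * κ * t ^ 2 := by
      rw [hW]
      simp only
      ring
    have e2 : (G (x₁ + t) + G (x₁ - t) - 2 * G x₁) / t ^ 2 + 2 * κ =
        (G (x₁ + t) + G (x₁ - t) - 2 * G x₁ + 2 * κ * t ^ 2) / t ^ 2 := by
      field_simp
    rw [e2, ← e]
    apply div_nonpos_of_nonpos_of_nonneg _ (by positivity)
    linarith
  have := le_of_tendsto hlim hle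
  linarith

lemma schwarz_complex (G : ℝ → ℂ) (hG : Continuous G) (a b : ℝ) (hab : a < b)
    (h : ∀ x ∈ Set.Ioo a b, Tendsto (fun h : ℝ => (G (x + h) + G (x - h) - 2 * G x) / (h : ℂ) ^ 2) (𝓝[>] 0) (𝓝 0)) :
    G a + G b - 2 * G ((a + b) / 2) = 0 := by
  have key : ∀ L : ℂ →L[ℝ] ℝ, L (G a + G b - 2 * G ((a + b) / 2)) = 0 := by
    intro L
    have h2 : ∀ z : ℂ, L (2 * z) = 2 * L z := by
      intro z
      have : (2 : ℂ) * z = (2 : ℝ) • z := by simp
      rw [this, map_smul, smul_eq_mul]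
    have hL : ∀ x ∈ Set.Ioo a b, Tendsto (fun h : ℝ => (L (G (x + h)) + L (G (x - h)) - 2 * L (G x)) / h ^ 2) (𝓝[>] 0) (𝓝 0) := by
      intro x hx
      have h1 := (L.continuous.tendsto 0).comp (h x hx)
      rw [map_zero] at h1
      refine h1.congr fun t => ?_
      simp only [Function.comp]
      have : (G (x + t) + G (x - t) - 2 * G x) / (t : ℂ) ^ 2 = ((t ^ 2)⁻¹ : ℝ) • (G (x + t) + G (x - t) - 2 * G x) := by
        rw [Complex.real_smul]
        push_cast
        rw [div_eq_mul_inv, mul_comm]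
      rw [this, map_smul, map_sub, map_add, h2, smul_eq_mul, div_eq_mul_inv, mul_comm]
    have a1 := schwarz_real (fun x => L (G x)) (L.continuous.comp hG) a b hab hL
    have a2 := schwarz_real (fun x => - L (G x)) (L.continuous.comp hG).neg a b hab (by
      intro x hx
      have := (hL x hx).neg
      rw [neg_zero] at this
      refine this.congr fun t => ?_
      ring)
    rw [map_sub, map_add, h2]
    linarith
  apply Complex.ext
  · exact key Complex.reCLM
  · exact key Complex.imCLM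

end Pool.Agent.W738.UN
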