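import Mathlib

set_option autoImplicit false

open Filter Topology Finset MeasureTheory
open scoped ENNReal

namespace Pool.Agent.W738.UN

/-- Strong law for bounded orthogonal sequences. -/
lemma orth_slln {Ω : Type} [MeasurableSpace Ω] (μ : Measure Ω) [IsProbabilityMeasure μ] (Z : ℕ → Ω → ℂ)
    (hm : ∀ n, Measurable (Z n)) (hb : ∀ n ω, ‖Z n ω‖ ≤ 1)
    (horth : ∀ n m, n ≠ m → ∫ ω, Z n ω * (starRingEnd ℂ) (Z m ω) ∂μ = 0) :
    ∀ᵐ ω ∂μ, Tendsto (fun N : ℕ => (∑ n ∈ range N, Z n ω) / (N : ℂ)) atTop (𝓝 0) := by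
  have hmeas : ∀ N, Measurable (fun ω => ∑ n ∈ range N, Z n ω) := fun N =>
    Finset.measurable_sum _ fun n _ => hm n
  have hint : ∀ n m, Integrable (fun ω => Z n ω * (starRingEnd ℂ) (Z m ω)) μ := by
    intro n m
    apply Integrable.of_bound (C := 1)
    · exact ((hm n).mul (Complex.continuous_conj.measurable.comp (hm m))).aestronglyMeasurable
    · refine Eventually.of_forall fun ω => ?_
      rw [norm_mul, RCLike.norm_conj]
      exact mul_le_one₀ (hb n ω) (norm_nonneg _) (hb m ω)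
  -- second moment
  have hsec : ∀ N : ℕ, ∫ ω, ‖∑ n ∈ range N, Z n ω‖ ^ 2 ∂μ ≤ N := by
    intro N
    have h1 : ((∫ ω, ‖∑ n ∈ range N, Z n ω‖ ^ 2 ∂μ : ℝ) : ℂ) = ∑ n ∈ range N, ∫ ω, Z n ω * (starRingEnd ℂ) (Z n ω) ∂μ := by
      rw [← integral_complex_ofReal]
      have h2 : ∀ ω, ((‖∑ n ∈ range N, Z n ω‖ ^ 2 : ℝ) : ℂ) =
          ∑ n ∈ range N, ∑ m ∈ range N, Z n ω * (starRingEnd ℂ) (Z m ω) := by
        intro ω
        rw [Complex.ofReal_pow, ← Complex.mul_conj', map_sum, Finset.sum_mul_sum]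
      simp_rw [h2]
      rw [integral_finsetSum _ fun n _ => integrable_finsetSum _ fun m _ => hint n m]
      apply Finset.sum_congr rfl
      intro n hn
      rw [integral_finsetSum _ fun m _ => hint n m]
      rw [Finset.sum_eq_single n]
      · intro m _ hmn
        exact horth n m (Ne.symm hmn)
      · intro h
        exact absurd hn h
    have h3 : ∀ n, ∫ ω, Z n ω * (starRingEnd ℂ) (Z n ω) ∂μ = ((∫ ω, ‖Z n ω‖ ^ 2 ∂μ : ℝ) : ℂ) := by
      intro n
      rw [← integral_complex_ofReal]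
      congr 1
      funext ω
      rw [Complex.mul_conj', Complex.ofReal_pow]
    simp_rw [h3] at h1
    have h4 : ∫ ω, ‖∑ n ∈ range N, Z n ω‖ ^ 2 ∂μ = ∑ n ∈ range N, ∫ ω, ‖Z n ω‖ ^ 2 ∂μ := by
      exact_mod_cast h1
    rw [h4]
    calc ∑ n ∈ range N, ∫ ω, ‖Z n ω‖ ^ 2 ∂μ ≤ ∑ n ∈ range N, (1 : ℝ) := by
          apply Finset.sum_le_sum
          intro n _
          have : ∫ ω, ‖Z n ω‖ ^ 2 ∂μ ≤ ∫ _ω, (1 : ℝ) ∂μ := by
            apply integral_mono_of_nonneg
            · exact Eventually.of_forall fun ω => by positivity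
            · exact integrable_const _
            · refine Eventually.of_forall fun ω => ?_
              simp only
              have := hb n ω
              have h0 := norm_nonneg (Z n ω)
              nlinarith
          simpa using this
      _ = N := by simp
  -- squares
  set f : ℕ → Ω → ℝ≥0∞ := fun k ω => ENNReal.ofReal ((‖∑ n ∈ range ((k + 1) ^ 2), Z n ω‖ / ((k + 1 : ℕ) : ℝ) ^ 2) ^ 2) with hf
  have hfm : ∀ k, Measurable (f k) := by
    intro k
    exact (((hmeas _).norm.div_const _).pow_const 2).ennreal_ofReal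
  have hfi : ∀ k, ∫⁻ ω, f k ω ∂μ ≤ ENNReal.ofReal (1 / ((k + 1 : ℕ) : ℝ) ^ 2) := by
    intro k
    rw [← ofReal_integral_eq_lintegral_ofReal]
    · apply ENNReal.ofReal_le_ofReal
      have h1 : ∀ ω, (‖∑ n ∈ range ((k + 1) ^ 2), Z n ω‖ / ((k + 1 : ℕ) : ℝ) ^ 2) ^ 2 =
          (1 / ((k + 1 : ℕ) : ℝ) ^ 4) * ‖∑ n ∈ range ((k + 1) ^ 2), Z n ω‖ ^ 2 := by
        intro ω
        rw [div_pow]
        ring
      simp_rw [h1]
      rw [integral_const_mul]
      have h2 := hsec ((k + 1) ^ 2)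
      have hk : (0 : ℝ) < ((k + 1 : ℕ) : ℝ) := by positivity
      calc (1 / ((k + 1 : ℕ) : ℝ) ^ 4) * ∫ ω, ‖∑ n ∈ range ((k + 1) ^ 2), Z n ω‖ ^ 2 ∂μ
          ≤ (1 / ((k + 1 : ℕ) : ℝ) ^ 4) * (((k + 1) ^ 2 : ℕ) : ℝ) := mul_le_mul_of_nonneg_left h2 (by positivity)
        _ = 1 / ((k + 1 : ℕ) : ℝ) ^ 2 := by
            push_cast
            field_simp
    · apply Integrable.of_bound (C := 1)
      · exact (((hmeas _).norm.div_const _).pow_const 2).aestronglyMeasurable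
      · refine Eventually.of_forall fun ω => ?_
        have h1 : ‖∑ n ∈ range ((k + 1) ^ 2), Z n ω‖ ≤ ((k + 1 : ℕ) : ℝ) ^ 2 := by
          calc ‖∑ n ∈ range ((k + 1) ^ 2), Z n ω‖ ≤ ∑ n ∈ range ((k + 1) ^ 2), ‖Z n ω‖ := norm_sum_le _ _
            _ ≤ ∑ n ∈ range ((k + 1) ^ 2), (1 : ℝ) := Finset.sum_le_sum fun n _ => hb n ω
            _ = _ := by simp
        have h2 : ‖∑ n ∈ range ((k + 1) ^ 2), Z n ω‖ / ((k + 1 : ℕ) : ℝ) ^ 2 ≤ 1 := by
          rw [div_le_one (by positivity)]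
          exact h1
        have h3 : 0 ≤ ‖∑ n ∈ range ((k + 1) ^ 2), Z n ω‖ / ((k + 1 : ℕ) : ℝ) ^ 2 := by positivity
        rw [Real.norm_of_nonneg (by positivity)]
        exact pow_le_one₀ h3 h2
    · exact Eventually.of_forall fun ω => by positivity
  have hsumm : Summable (fun k : ℕ => 1 / ((k + 1 : ℕ) : ℝ) ^ 2) := by
    have := (Real.summable_one_div_nat_pow (p := 2)).mpr (by norm_num)
    exact (summable_nat_add_iff 1).mpr this
  have hae : ∀ᵐ ω ∂μ, ∑' k, f k ω < ⊤ := by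
    apply ae_lt_top (Measurable.tsum hfm)
    rw [lintegral_tsum fun k => (hfm k).aemeasurable]
    apply ne_top_of_le_ne_top _ (ENNReal.tsum_le_tsum hfi)
    rw [← ENNReal.ofReal_tsum_of_nonneg (fun k => by positivity) hsumm]
    exact ENNReal.ofReal_ne_top
  filter_upwards [hae] with ω hω
  have h1 : Tendsto (fun k => f k ω) atTop (𝓝 0) := by
    have := ENNReal.tendsto_cofinite_zero_of_tsum_ne_top hω.ne
    rwa [Nat.cofinite_eq_atTop] at this
  have h2 : Tendsto (fun k : ℕ => ‖∑ n ∈ range ((k + 1) ^ 2), Z n ω‖ / ((k + 1 : ℕ) : ℝ) ^ 2) atTop (𝓝 0) := by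
    have h3 : Tendsto (fun k => (f k ω).toReal) atTop (𝓝 0) := by
      have := (ENNReal.tendsto_toReal ENNReal.zero_ne_top).comp h1
      rw [ENNReal.toReal_zero] at this
      exact this
    have h4 : ∀ k, (f k ω).toReal = (‖∑ n ∈ range ((k + 1) ^ 2), Z n ω‖ / ((k + 1 : ℕ) : ℝ) ^ 2) ^ 2 := by
      intro k
      simp only [hf]
      rw [ENNReal.toReal_ofReal (by positivity)]
    simp_rw [h4] at h3
    have h5 := (Real.continuous_sqrt.tendsto 0).comp h3
    rw [Real.sqrt_zero] at h5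
    refine h5.congr fun k => ?_
    simp only [Function.comp]
    rw [Real.sqrt_sq (by positivity)]
  have h3 : Tendsto (fun k : ℕ => ‖∑ n ∈ range (k ^ 2), Z n ω‖ / (k : ℝ) ^ 2) atTop (𝓝 0) :=
    (tendsto_add_atTop_iff_nat 1).mp h2
  have h4 : Tendsto (fun k : ℕ => ‖∑ n ∈ range (k ^ 2), Z n ω‖ / (k : ℝ) ^ 2 + 2 / (k : ℝ)) atTop (𝓝 0) := by
    have := h3.add (tendsto_const_div_atTop_nhds_zero_nat 2)
    rwa [add_zero] at this
  have hsq : Tendsto Nat.sqrt atTop atTop := by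
    rw [tendsto_atTop_atTop]
    intro b
    refine ⟨b * b, fun a ha => ?_⟩
    exact Nat.le_sqrt.mpr ha
  have h5 := h4.comp hsq
  rw [tendsto_zero_iff_norm_tendsto_zero]
  apply squeeze_zero' (Eventually.of_forall fun _ => norm_nonneg _) _ h5
  filter_upwards [eventually_ge_atTop 1] with N hN
  simp only [Function.comp]
  set k := Nat.sqrt N with hk
  have hk1 : k * k ≤ N := Nat.sqrt_le N
  have hk2 : N < (k + 1) * (k + 1) := Nat.lt_succ_sqrt N
  have hk0 : 0 < k := Nat.sqrt_pos.mpr hN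
  have hkr : (0 : ℝ) < k := by exact_mod_cast hk0
  have hNr : (0 : ℝ) < N := by exact_mod_cast hN
  have hkN : (k : ℝ) ^ 2 ≤ N := by
    have : k ^ 2 ≤ N := by rw [sq]; exact hk1
    exact_mod_cast this
  have hle : ‖∑ n ∈ range N, Z n ω‖ ≤ ‖∑ n ∈ range (k ^ 2), Z n ω‖ + 2 * k := by
    have hsplit : ∑ n ∈ range N, Z n ω = ∑ n ∈ range (k ^ 2), Z n ω + ∑ n ∈ Finset.Ico (k ^ 2) N, Z n ω := by
      rw [Finset.sum_range_add_sum_Ico _ (by rw [sq]; exact hk1)]
    rw [hsplit]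
    refine (norm_add_le _ _).trans ?_
    have : ‖∑ n ∈ Finset.Ico (k ^ 2) N, Z n ω‖ ≤ 2 * k := by
      calc ‖∑ n ∈ Finset.Ico (k ^ 2) N, Z n ω‖ ≤ ∑ n ∈ Finset.Ico (k ^ 2) N, ‖Z n ω‖ := norm_sum_le _ _
        _ ≤ ∑ n ∈ Finset.Ico (k ^ 2) N, (1 : ℝ) := Finset.sum_le_sum fun n _ => hb n ω
        _ = ((N - k ^ 2 : ℕ) : ℝ) := by simp
        _ ≤ 2 * k := by
            have : N - k ^ 2 ≤ 2 * k := by
              have e : (k + 1) * (k + 1) = k ^ 2 + 2 * k + 1 := by ring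
              omega
            exact_mod_cast this
    linarith
  rw [norm_div, Complex.norm_natCast]
  calc ‖∑ n ∈ range N, Z n ω‖ / N ≤ (‖∑ n ∈ range (k ^ 2), Z n ω‖ + 2 * k) / N :=
        div_le_div_of_nonneg_right hle hNr.le
    _ ≤ (‖∑ n ∈ range (k ^ 2), Z n ω‖ + 2 * k) / (k : ℝ) ^ 2 := by
        apply div_le_div_of_nonneg_left (by positivity) (by positivity) hkN
    _ = _ := by
        field_simp

end Pool.Agent.W738.UN
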