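import Mathlib
import Pool.Agent.W738.UN.Slln
import Pool.Agent.W738.UN.Riem
import Pool.Agent.W28.NRWeyl

set_option autoImplicit false

open Filter Topology Finset MeasureTheory
open scoped ENNReal

namespace Pool.Agent.W738.UN

/-- digit sequences -/
abbrev Om : Type := ℕ → Fin 2

/-- the fair coin -/
noncomputable def coin : Measure (Fin 2) := (PMF.uniformOfFintype (Fin 2)).toMeasure

instance : IsProbabilityMeasure coin := by unfold coin; infer_instance

lemma coin_singleton (x : Fin 2) : coin {x} = 2⁻¹ := by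
  unfold coin
  rw [PMF.toMeasure_apply_singleton _ _ (MeasurableSet.singleton x), PMF.uniformOfFintype_apply]
  simp

lemma coin_flip : coin.map (fun x => x + 1) = coin := by
  refine Measure.ext_of_singleton (fun b => ?_)
  rw [Measure.map_apply (measurable_of_countable _) (MeasurableSet.singleton b)]
  have : (fun x : Fin 2 => x + 1) ⁻¹' {b} = {b + 1} := by
    ext d
    simp only [Set.mem_preimage, Set.mem_singleton_iff]
    revert d b
    decide
  rw [this, coin_singleton, coin_singleton]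

/-- fair digits -/
noncomputable def PP : Measure Om := Measure.infinitePi (fun _ => coin)

instance : IsProbabilityMeasure PP := by unfold PP; infer_instance

/-- flip one digit -/
def flp (i : ℕ) (c : Om) : Om := Function.update c i (c i + 1)

lemma flp_eq (i : ℕ) : flp i = fun (c : Om) (j : ℕ) => (if j = i then (fun x : Fin 2 => x + 1) else id) (c j) := by
  funext c j
  unfold flp
  by_cases h : j = i
  · subst h; simp
  · simp [h]

lemma flp_meas (i : ℕ) : Measurable (flp i) := by
  rw [flp_eq]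
  apply measurable_pi_lambda
  intro j
  exact (measurable_of_countable _).comp (measurable_pi_apply j)

lemma PP_flp (i : ℕ) : PP.map (flp i) = PP := by
  rw [flp_eq]
  unfold PP
  rw [Measure.infinitePi_map_pi (μ := fun _ : ℕ => coin)
    (f := fun j => (if j = i then (fun x : Fin 2 => x + 1) else id)) (fun j => measurable_of_countable _)]
  have : (fun j : ℕ => coin.map (if j = i then (fun x : Fin 2 => x + 1) else id)) = fun _ => coin := by
    funext j
    split_ifs
    · exact coin_flip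
    · exact Measure.map_id
  simp only [this]

lemma ofDigits_flp (i : ℕ) (c : Om) : Real.ofDigits (flp i c) =
    Real.ofDigits c + ((((c i + 1 : Fin 2) : ℕ) : ℝ) - ((c i : ℕ) : ℝ)) * ((2 : ℝ) ^ (i + 1))⁻¹ := by
  have h1 : Real.ofDigitsTerm (flp i c) = Function.update (Real.ofDigitsTerm c) i
      ((((c i + 1 : Fin 2) : ℕ) : ℝ) * ((2 : ℝ) ^ (i + 1))⁻¹) := by
    funext j
    unfold Real.ofDigitsTerm flp
    by_cases h : j = i
    · subst h; simp
    · simp [h]
  have h2 := (Real.summable_ofDigitsTerm (digits := c)).hasSum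
  have h3 := h2.update i ((((c i + 1 : Fin 2) : ℕ) : ℝ) * ((2 : ℝ) ^ (i + 1))⁻¹)
  rw [← h1] at h3
  have h4 := h3.tsum_eq
  unfold Real.ofDigits
  rw [h4]
  unfold Real.ofDigitsTerm
  push_cast
  ring

lemma fin2_diff (x : Fin 2) : (((x + 1 : Fin 2) : ℕ) : ℝ) - ((x : ℕ) : ℝ) = 1 ∨
    (((x + 1 : Fin 2) : ℕ) : ℝ) - ((x : ℕ) : ℝ) = -1 := by
  fin_cases x
  · left; simp
  · right; simp

lemma ee_flp (k : ℤ) (i : ℕ) (l : ℤ) (hk : k = 2 ^ i * (2 * l + 1)) (c : Om) :
    ee k (Real.ofDigits (flp i c)) = - ee k (Real.ofDigits c) := by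
  rw [ofDigits_flp, ee_add]
  have h1 : ee k (((((c i + 1 : Fin 2) : ℕ) : ℝ) - ((c i : ℕ) : ℝ)) * ((2 : ℝ) ^ (i + 1))⁻¹) = -1 := by
    have h2 : (2 : ℂ) ^ i ≠ 0 := pow_ne_zero _ (by norm_num)
    rcases fin2_diff (c i) with h | h
    · rw [h]
      unfold ee
      have : 2 * (Real.pi : ℂ) * Complex.I * (k : ℂ) * ((1 * ((2 : ℝ) ^ (i + 1))⁻¹ : ℝ) : ℂ) =
          (l : ℂ) * (2 * Real.pi * Complex.I) + Real.pi * Complex.I := by
        rw [hk]
        push_cast
        rw [pow_succ]
        field_simp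
      rw [this, Complex.exp_add, Complex.exp_int_mul_two_pi_mul_I, Complex.exp_pi_mul_I, one_mul]
    · rw [h]
      unfold ee
      have : 2 * (Real.pi : ℂ) * Complex.I * (k : ℂ) * ((-1 * ((2 : ℝ) ^ (i + 1))⁻¹ : ℝ) : ℂ) =
          ((-l - 1 : ℤ) : ℂ) * (2 * Real.pi * Complex.I) + Real.pi * Complex.I := by
        rw [hk]
        push_cast
        rw [pow_succ]
        field_simp
        ring
      rw [this, Complex.exp_add, Complex.exp_int_mul_two_pi_mul_I, Complex.exp_pi_mul_I, one_mul]
  rw [h1]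
  ring

lemma exists_val (k : ℤ) (hk : k ≠ 0) : ∃ (i : ℕ) (l : ℤ), k = 2 ^ i * (2 * l + 1) := by
  obtain ⟨i, m, hm, he⟩ := Nat.exists_eq_two_pow_mul_odd (n := k.natAbs) (by omega)
  obtain ⟨l, hl⟩ := hm
  rcases Int.natAbs_eq k with h | h
  · refine ⟨i, l, ?_⟩
    rw [h, he, hl]
    push_cast
    ring
  · refine ⟨i, -l - 1, ?_⟩
    rw [h, he, hl]
    push_cast
    ring

/-- mix two digit sequences -/
def mix (M : ℕ → Bool) (p : Om × Om) : Om := fun j => if M j then p.1 j else p.2 j

lemma mix_flp (M : ℕ → Bool) (i : ℕ) (p : Om × Om) :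
    mix M (Prod.map (flp i) (flp i) p) = flp i (mix M p) := by
  funext j
  unfold mix flp
  by_cases h : j = i
  · subst h
    simp only [Prod.map_fst, Prod.map_snd, Function.update_self]
    split_ifs <;> rfl
  · simp [h]

lemma mix_meas (M : ℕ → Bool) : Measurable (mix M) := by
  apply measurable_pi_lambda
  intro j
  unfold mix
  split_ifs
  · exact (measurable_pi_apply j).comp measurable_fst
  · exact (measurable_pi_apply j).comp measurable_snd

lemma ofDigits_meas : Measurable (Real.ofDigits : Om → ℝ) := Real.continuous_ofDigits.measurable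

lemma integral_mix (M : ℕ → Bool) (k : ℤ) (hk : k ≠ 0) :
    ∫ p, ee k (Real.ofDigits (mix M p)) ∂(PP.prod PP) = 0 := by
  obtain ⟨i, l, hl⟩ := exists_val k hk
  have hmp : MeasurePreserving (Prod.map (flp i) (flp i)) (PP.prod PP) (PP.prod PP) :=
    (MeasurePreserving.mk (flp_meas i) (PP_flp i)).prod (MeasurePreserving.mk (flp_meas i) (PP_flp i))
  have hmeas : Measurable (fun p : Om × Om => ee k (Real.ofDigits (mix M p))) :=
    (ee_cont k).measurable.comp (ofDigits_meas.comp (mix_meas M))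
  have h1 : ∫ p, ee k (Real.ofDigits (mix M p)) ∂(PP.prod PP) =
      ∫ p, ee k (Real.ofDigits (mix M (Prod.map (flp i) (flp i) p))) ∂(PP.prod PP) := by
    conv_lhs => rw [← hmp.map_eq]
    rw [integral_map hmp.measurable.aemeasurable hmeas.aestronglyMeasurable]
  simp_rw [mix_flp, ee_flp k i l hl] at h1
  rw [integral_neg] at h1
  have h2 : (2 : ℂ) * ∫ p, ee k (Real.ofDigits (mix M p)) ∂(PP.prod PP) = 0 := by
    linear_combination h1
  simpa using h2

lemma ee_conj (k : ℤ) (x : ℝ) : (starRingEnd ℂ) (ee k x) = ee (-k) x := by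
  unfold ee
  rw [← Complex.exp_conj]
  congr 1
  simp only [map_mul, Complex.conj_ofReal, Complex.conj_I, map_ofNat, Int.cast_neg, map_intCast]
  ring

lemma ae_weyl (M : ℕ → Bool) (b h : ℕ) (hb : 2 ≤ b) (hh : 1 ≤ h) :
    ∀ᵐ p ∂(PP.prod PP), Tendsto (fun N : ℕ =>
      (∑ n ∈ range N, ee ((h : ℤ) * (b : ℤ) ^ n) (Real.ofDigits (mix M p))) / (N : ℂ)) atTop (𝓝 0) := by
  apply orth_slln
  · intro n
    exact (ee_cont _).measurable.comp (ofDigits_meas.comp (mix_meas M))
  · intro n p
    rw [norm_ee]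
  · intro n m hnm
    have h1 : ∀ p : Om × Om, ee ((h : ℤ) * (b : ℤ) ^ n) (Real.ofDigits (mix M p)) *
        (starRingEnd ℂ) (ee ((h : ℤ) * (b : ℤ) ^ m) (Real.ofDigits (mix M p))) =
        ee ((h : ℤ) * (b : ℤ) ^ n - (h : ℤ) * (b : ℤ) ^ m) (Real.ofDigits (mix M p)) := by
      intro p
      rw [ee_conj, ← ee_sub]
    simp_rw [h1]
    apply integral_mix
    intro h0
    have h2 : (h : ℤ) * (b : ℤ) ^ n = (h : ℤ) * (b : ℤ) ^ m := by linarith
    have h3 : (h : ℤ) ≠ 0 := by exact_mod_cast (by omega : h ≠ 0)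
    have h4 := mul_left_cancel₀ h3 h2
    have h5 : b ^ n = b ^ m := by exact_mod_cast h4
    exact hnm (Nat.pow_right_injective hb h5)

open Pool.Agent.W28.NR in
/-- almost every mixture is normal in every base -/
lemma ae_normal (M : ℕ → Bool) : ∀ᵐ p ∂(PP.prod PP), ∀ b : ℕ, 2 ≤ b → NormalBase b (Real.ofDigits (mix M p)) := by
  have h1 : ∀ᵐ p ∂(PP.prod PP), ∀ b h : ℕ, 2 ≤ b → 1 ≤ h → Tendsto (fun N : ℕ =>
      (∑ n ∈ range N, ee ((h : ℤ) * (b : ℤ) ^ n) (Real.ofDigits (mix M p))) / (N : ℂ)) atTop (𝓝 0) := by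
    rw [ae_all_iff]
    intro b
    rw [ae_all_iff]
    intro h
    by_cases hb : 2 ≤ b
    · by_cases hh : 1 ≤ h
      · filter_upwards [ae_weyl M b h hb hh] with p hp _ _
        exact hp
      · exact Eventually.of_forall fun p _ h2 => absurd h2 hh
    · exact Eventually.of_forall fun p h2 => absurd h2 hb
  filter_upwards [h1] with p hp b hb
  apply normal_of_weyl b hb
  intro k hk
  refine (hp b k hb hk).congr fun N => ?_
  congr 1
  apply Finset.sum_congr rfl
  intro n _
  unfold ee ex
  congr 1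
  push_cast
  ring

open Pool.Agent.W28.NR in
/-- a good choice of the prescribed digits -/
lemma exists_digits (M : ℕ → Bool) : ∃ a : Om, ∀ᵐ c ∂PP, ∀ b : ℕ, 2 ≤ b → NormalBase b (Real.ofDigits (mix M (a, c))) := by
  have h := Measure.ae_ae_of_ae_prod (ae_normal M)
  exact h.exists

/-- prefix values -/
def pre : ℕ → Om → ℕ
  | 0, _ => 0
  | (n + 1), c => 2 * pre n c + c n

lemma pre_inj (n : ℕ) (c c' : Om) (h : pre n c = pre n c') : ∀ i < n, c i = c' i := by
  induction n with
  | zero => intro i hi; omega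
  | succ n ih =>
    unfold pre at h
    have h1 := (c n).2
    have h2 := (c' n).2
    have h3 : pre n c = pre n c' := by omega
    have h4 : ((c n : Fin 2) : ℕ) = c' n := by omega
    intro i hi
    rcases Nat.lt_succ_iff_lt_or_eq.mp hi with h5 | h5
    · exact ih h3 i h5
    · rw [h5]; exact Fin.ext h4

lemma pow_mul_ofDigits (n : ℕ) (c : Om) : (2 : ℝ) ^ n * Real.ofDigits c = pre n c + Real.ofDigits (fun i => c (i + n)) := by
  have h1 : ∀ n : ℕ, (2 : ℝ) ^ n * ∑ i ∈ range n, Real.ofDigitsTerm c i = pre n c := by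
    intro n
    induction n with
    | zero => simp [pre]
    | succ n ih =>
      rw [Finset.sum_range_succ, mul_add, pow_succ, mul_comm ((2 : ℝ) ^ n) 2, mul_assoc, ih]
      unfold Real.ofDigitsTerm
      rw [show pre (n + 1) c = 2 * pre n c + c n from rfl]
      push_cast
      rw [pow_succ]
      field_simp
  have h2 := Real.ofDigits_eq_sum_add_ofDigits c n
  rw [h2, mul_add, h1]
  push_cast
  field_simp

open Classical in
/-- mass of a cylinder -/
lemma cyl_mass (M : ℕ → Bool) (a : Om) (n p : ℕ) :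
    PP {c | pre n (mix M (a, c)) = p} ≤ (2⁻¹ : ℝ≥0∞) ^ #{i ∈ range n | M i = false} := by
  by_cases he : ({c | pre n (mix M (a, c)) = p} : Set Om).Nonempty
  · obtain ⟨c₀, hc₀⟩ := he
    have hsub : {c | pre n (mix M (a, c)) = p} ⊆ Set.pi (↑({i ∈ range n | M i = false}) : Set ℕ) (fun i => ({c₀ i} : Set (Fin 2))) := by
      intro c hc
      rw [Set.mem_pi]
      intro i hi
      rw [mem_coe, mem_filter, mem_range] at hi
      have h1 : pre n (mix M (a, c)) = pre n (mix M (a, c₀)) := by
        have e1 : pre n (mix M (a, c)) = p := hc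
        have e2 : pre n (mix M (a, c₀)) = p := hc₀
        rw [e1, e2]
      have h2 := pre_inj n _ _ h1 i hi.1
      unfold mix at h2
      simp only [hi.2, Bool.false_eq_true, if_false] at h2
      rw [Set.mem_singleton_iff]
      exact h2
    refine (measure_mono hsub).trans ?_
    unfold PP
    rw [Measure.infinitePi_pi (μ := fun _ : ℕ => coin) (fun i _ => MeasurableSet.singleton _)]
    simp only [coin_singleton, prod_const]
    exact le_refl _
  · rw [Set.not_nonempty_iff_eq_empty] at he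
    rw [he, measure_empty]
    exact zero_le

open Classical in
/-- mass of a small set -/
lemma small_mass (M : ℕ → Bool) (a : Om) (n : ℕ) (s : Set ℝ) (hs : ∀ x ∈ s, ∀ y ∈ s, |x - y| ≤ (1 / 2 : ℝ) ^ n) :
    PP {c | Real.ofDigits (mix M (a, c)) ∈ s} ≤ 4 * (2⁻¹ : ℝ≥0∞) ^ #{i ∈ range n | M i = false} := by
  by_cases he : s.Nonempty
  · obtain ⟨x₀, hx₀⟩ := he
    set z : ℤ := ⌈2 ^ n * x₀ - 2⌉ with hz
    have hsub : {c | Real.ofDigits (mix M (a, c)) ∈ s} ⊆ ⋃ j ∈ range 4, {c | pre n (mix M (a, c)) = (z + (j : ℤ)).toNat} := by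
      intro c hc
      have hc' : Real.ofDigits (mix M (a, c)) ∈ s := hc
      have h1 := hs _ hc' _ hx₀
      have h2 := pow_mul_ofDigits n (mix M (a, c))
      have h3 := Real.ofDigits_nonneg (fun i => mix M (a, c) (i + n))
      have h4 := Real.ofDigits_le_one (fun i => mix M (a, c) (i + n))
      have h5 : |2 ^ n * Real.ofDigits (mix M (a, c)) - 2 ^ n * x₀| ≤ 1 := by
        rw [← mul_sub, abs_mul, abs_of_pos (by positivity)]
        calc (2 : ℝ) ^ n * |Real.ofDigits (mix M (a, c)) - x₀| ≤ 2 ^ n * (1 / 2 : ℝ) ^ n :=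
              mul_le_mul_of_nonneg_left h1 (by positivity)
          _ = 1 := by rw [← mul_pow]; norm_num
      rw [abs_le] at h5
      set p := pre n (mix M (a, c)) with hp
      have h6 : 2 ^ n * x₀ - 2 ≤ (p : ℝ) := by linarith [h5.1]
      have h7 : (p : ℝ) ≤ 2 ^ n * x₀ + 1 := by linarith [h5.2]
      have h8 : z ≤ p := by
        rw [hz, Int.ceil_le]
        push_cast
        exact h6
      have h9 : (p : ℤ) < z + 4 := by
        have h10 := Int.le_ceil (2 ^ n * x₀ - 2)
        rw [← hz] at h10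
        have h11 : ((p : ℤ) : ℝ) < ((z + 4 : ℤ) : ℝ) := by
          push_cast
          linarith
        exact_mod_cast h11
      simp only [Set.mem_iUnion, mem_range]
      refine ⟨((p : ℤ) - z).toNat, by omega, ?_⟩
      show p = _
      omega
    refine (measure_mono hsub).trans ((measure_biUnion_finset_le _ _).trans ?_)
    refine (Finset.sum_le_sum fun j _ => cyl_mass M a n _).trans ?_
    simp
  · rw [Set.not_nonempty_iff_eq_empty] at he
    subst he
    simp

end Pool.Agent.W738.UN
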