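import Mathlib
import Pool.Agent.W738.UN.Riem

set_option autoImplicit false

open Filter Topology Finset

namespace Pool.Agent.W738.UN

/-- Cantor-Lebesgue -/
lemma cantor_lebesgue (c : ℤ → ℂ) (α β : ℝ) (hαβ : α < β)
    (h : ∀ x ∈ Set.Icc α β, Tendsto (SS c x) atTop (𝓝 0)) (ε : ℝ) (hε : 0 < ε) :
    ∃ n₀ : ℕ, ∀ n : ℤ, n₀ ≤ n.natAbs → ‖c n‖ ≤ ε := by
  set A : ℕ → ℝ → ℂ := fun n x => c (n : ℤ) * ee (n : ℤ) x + c (-(n : ℤ)) * ee (-(n : ℤ)) x with hA
  have hAc : ∀ n, Continuous (A n) := by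
    intro n
    exact (continuous_const.mul (ee_cont _)).add (continuous_const.mul (ee_cont _))
  have hA0 : ∀ x ∈ Set.Icc α β, Tendsto (fun n => A n x) atTop (𝓝 0) := by
    intro x hx
    have h1 := h x hx
    have h2 : Tendsto (fun n => SS c x (n + 1) - SS c x n) atTop (𝓝 (0 - 0)) :=
      ((tendsto_add_atTop_iff_nat 1).mpr h1).sub h1
    rw [sub_zero] at h2
    have h3 : Tendsto (fun n => A (n + 1) x) atTop (𝓝 0) := by
      refine h2.congr fun n => ?_
      unfold SS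
      rw [sum_Icc_succ]
      simp only [hA]
      ring
    exact (tendsto_add_atTop_iff_nat 1).mp h3
  -- Baire
  set Fk : Option ℕ → Set ℝ := fun o => match o with
    | none => (Set.Ioo α β)ᶜ
    | some k => {x | x ∈ Set.Icc α β ∧ ∀ n ≥ k, ‖A n x‖ ≤ ε / 2} with hFk
  have hclosed : ∀ o, IsClosed (Fk o) := by
    intro o
    cases o with
    | none => exact isOpen_Ioo.isClosed_compl
    | some k =>
      have : Fk (some k) = Set.Icc α β ∩ ⋂ n : ℕ, ⋂ (_ : n ≥ k), {x | ‖A n x‖ ≤ ε / 2} := by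
        ext x
        simp [hFk]
      rw [this]
      apply isClosed_Icc.inter
      apply isClosed_iInter
      intro n
      apply isClosed_iInter
      intro _
      exact isClosed_le (hAc n).norm continuous_const
  have hcov : ⋃ o, Fk o = Set.univ := by
    rw [Set.eq_univ_iff_forall]
    intro x
    rw [Set.mem_iUnion]
    by_cases hx : x ∈ Set.Ioo α β
    · obtain ⟨k, hk⟩ := (Metric.tendsto_atTop.mp (hA0 x (Set.Ioo_subset_Icc_self hx))) (ε / 2) (by positivity)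
      refine ⟨some k, Set.Ioo_subset_Icc_self hx, fun n hn => ?_⟩
      have := hk n hn
      rw [dist_zero_right] at this
      exact this.le
    · exact ⟨none, hx⟩
  have hdense := dense_iUnion_interior_of_closed hclosed hcov
  obtain ⟨x₀, hx₀, hx₀'⟩ := hdense.inter_open_nonempty (Set.Ioo α β) isOpen_Ioo
    (Set.nonempty_Ioo.mpr hαβ)
  rw [Set.mem_iUnion] at hx₀'
  obtain ⟨o, ho⟩ := hx₀'
  cases o with
  | none => exact absurd hx₀ (interior_subset ho)
  | some k =>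
    obtain ⟨r, hr, hball⟩ := Metric.isOpen_iff.mp isOpen_interior x₀ ho
    obtain ⟨n₁, hn₁⟩ := exists_nat_gt (1 / r)
    refine ⟨max k (n₁ + 1), fun n hn => ?_⟩
    set N := n.natAbs with hN
    have hk : k ≤ N := (le_max_left _ _).trans hn
    have hN1 : n₁ + 1 ≤ N := (le_max_right _ _).trans hn
    have hNpos : (0 : ℝ) < N := by
      have : 0 < N := by omega
      exact_mod_cast this
    have hx1 : ‖A N x₀‖ ≤ ε / 2 := (interior_subset ho).2 N hk
    have hx2 : ‖A N (x₀ + 1 / (4 * N))‖ ≤ ε / 2 := by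
      have hmem : x₀ + 1 / (4 * N) ∈ Metric.ball x₀ r := by
        rw [Metric.mem_ball, Real.dist_eq]
        have : x₀ + 1 / (4 * (N : ℝ)) - x₀ = 1 / (4 * N) := by ring
        rw [this, abs_of_pos (by positivity)]
        have h1 : 1 / r < N := by
          have : (n₁ : ℝ) < N := by
            have : n₁ < N := by omega
            exact_mod_cast this
          linarith
        rw [div_lt_iff₀ hr] at h1
        rw [div_lt_iff₀ (by positivity)]
        nlinarith
      exact (interior_subset (hball hmem)).2 N hk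
    have hI : ee (N : ℤ) (1 / (4 * N)) = Complex.I := by
      unfold ee
      have hNc : (N : ℂ) ≠ 0 := by exact_mod_cast hNpos.ne'
      have : 2 * (Real.pi : ℂ) * Complex.I * ((N : ℤ) : ℂ) * ((1 / (4 * (N : ℝ)) : ℝ) : ℂ) = (Real.pi / 2 : ℂ) * Complex.I := by
        push_cast
        field_simp
        ring
      rw [this, Complex.exp_pi_div_two_mul_I]
    have hI' : ee (-(N : ℤ)) (1 / (4 * N)) = -Complex.I := by
      unfold ee
      have hNc : (N : ℂ) ≠ 0 := by exact_mod_cast hNpos.ne'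
      have : 2 * (Real.pi : ℂ) * Complex.I * ((-(N : ℤ) : ℤ) : ℂ) * ((1 / (4 * (N : ℝ)) : ℝ) : ℂ) = -((Real.pi / 2 : ℂ) * Complex.I) := by
        push_cast
        field_simp
        ring
      rw [this, Complex.exp_neg, Complex.exp_pi_div_two_mul_I, Complex.inv_I]
    have hA2 : A N (x₀ + 1 / (4 * N)) = Complex.I * (c (N : ℤ) * ee (N : ℤ) x₀ - c (-(N : ℤ)) * ee (-(N : ℤ)) x₀) := by
      simp only [hA]
      rw [ee_add, ee_add, hI, hI']
      ring
    have e1 : c (N : ℤ) * ee (N : ℤ) x₀ = (A N x₀ - Complex.I * A N (x₀ + 1 / (4 * N))) / 2 := by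
      rw [hA2, ← mul_assoc, Complex.I_mul_I]
      simp only [hA]
      ring
    have e2 : c (-(N : ℤ)) * ee (-(N : ℤ)) x₀ = (A N x₀ + Complex.I * A N (x₀ + 1 / (4 * N))) / 2 := by
      rw [hA2, ← mul_assoc, Complex.I_mul_I]
      simp only [hA]
      ring
    have n1 : ‖c (N : ℤ)‖ ≤ ε := by
      have : ‖c (N : ℤ)‖ = ‖c (N : ℤ) * ee (N : ℤ) x₀‖ := by rw [norm_mul, norm_ee, mul_one]
      rw [this, e1, norm_div]
      have h3 := norm_sub_le (A N x₀) (Complex.I * A N (x₀ + 1 / (4 * N)))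
      rw [norm_mul, Complex.norm_I, one_mul] at h3
      have : ‖(2 : ℂ)‖ = 2 := by simp
      rw [this]
      linarith
    have n2 : ‖c (-(N : ℤ))‖ ≤ ε := by
      have : ‖c (-(N : ℤ))‖ = ‖c (-(N : ℤ)) * ee (-(N : ℤ)) x₀‖ := by rw [norm_mul, norm_ee, mul_one]
      rw [this, e2, norm_div]
      have h3 := norm_add_le (A N x₀) (Complex.I * A N (x₀ + 1 / (4 * N)))
      rw [norm_mul, Complex.norm_I, one_mul] at h3
      have : ‖(2 : ℂ)‖ = 2 := by simp
      rw [this]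
      linarith
    rcases Int.natAbs_eq n with h4 | h4
    · rw [h4]; exact n1
    · rw [h4]; exact n2

/-- geometric sums over equispaced points -/
lemma geom_pts (q : ℕ) (hq : 0 < q) (δ : ℝ) (k : ℤ) :
    ‖∑ j ∈ range q, ee k ((j + δ) / q)‖ = if (q : ℤ) ∣ k then (q : ℝ) else 0 := by
  have hq0 : (q : ℝ) ≠ 0 := by exact_mod_cast hq.ne'
  have hqc : (q : ℂ) ≠ 0 := by exact_mod_cast hq.ne'
  set ζ := ee k (1 / q) with hζ
  have hpow : ∀ j : ℕ, ee k (j / q) = ζ ^ j := by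
    intro j
    rw [hζ]
    unfold ee
    rw [← Complex.exp_nat_mul]
    congr 1
    push_cast
    ring
  have hsum : ∑ j ∈ range q, ee k ((j + δ) / q) = (∑ j ∈ range q, ζ ^ j) * ee k (δ / q) := by
    rw [Finset.sum_mul]
    apply Finset.sum_congr rfl
    intro j _
    rw [add_div, ee_add, hpow]
  rw [hsum, norm_mul, norm_ee, mul_one]
  split_ifs with hd
  · obtain ⟨l, rfl⟩ := hd
    have h1 : ζ = 1 := by
      rw [hζ]
      unfold ee
      have : 2 * (Real.pi : ℂ) * Complex.I * (((q : ℤ) * l : ℤ) : ℂ) * ((1 / (q : ℝ) : ℝ) : ℂ) = (l : ℂ) * (2 * Real.pi * Complex.I) := by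
        push_cast
        field_simp
      rw [this, Complex.exp_int_mul_two_pi_mul_I]
    rw [h1]
    simp
  · have h1 : ζ ≠ 1 := by
      intro h1
      apply hd
      rw [hζ] at h1
      unfold ee at h1
      rw [Complex.exp_eq_one_iff] at h1
      obtain ⟨l, hl⟩ := h1
      refine ⟨l, ?_⟩
      have h2 : (k : ℂ) = (q : ℂ) * l := by
        have hpi : (2 * (Real.pi : ℂ) * Complex.I) ≠ 0 := by
          have : (Real.pi : ℂ) ≠ 0 := by exact_mod_cast Real.pi_ne_zero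
          simp [this, Complex.I_ne_zero]
        have h3 : (2 * (Real.pi : ℂ) * Complex.I) * ((k : ℂ) * (1 / q)) = (2 * (Real.pi : ℂ) * Complex.I) * l := by
          push_cast at hl
          linear_combination hl
        have h4 := mul_left_cancel₀ hpi h3
        field_simp at h4
        linear_combination h4
      exact_mod_cast h2
    have h2 : ζ ^ q = 1 := by
      rw [← hpow q, div_self hq0]
      unfold ee
      have : 2 * (Real.pi : ℂ) * Complex.I * (k : ℂ) * ((1 : ℝ) : ℂ) = (k : ℂ) * (2 * Real.pi * Complex.I) := by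
        push_cast; ring
      rw [this, Complex.exp_int_mul_two_pi_mul_I]
    rw [geom_sum_eq h1, h2, sub_self, zero_div, norm_zero]

/-- the averaging step -/
lemma averaging (c : ℤ → ℂ) (B : ℝ) (hB : ∀ n, ‖c n‖ ≤ B) (q : ℕ) (hq : 0 < q) (δ : ℝ) (N : ℤ)
    (ε : ℝ) (hε : 0 < ε) (hN : 2 * |(N : ℝ)| ≤ q) (hc : ∀ n : ℤ, q ≤ 2 * n.natAbs → ‖c n‖ ≤ ε)
    (h : ∀ j < q, ∑' n : ℤ, c n * ((sc (Real.pi * n * (1 / (4 * q))) : ℝ) : ℂ) * ee n ((j + δ) / q) = 0) :
    ‖c N‖ * sc (Real.pi * N * (1 / (4 * q))) ≤ 7 * ε * ∑' m : ℤ, 1 / (m : ℝ) ^ 2 := by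
  have hq0 : (0 : ℝ) < q := by exact_mod_cast hq
  have hh : (1 / (4 * (q : ℝ))) ≠ 0 := by positivity
  set g : ℤ → ℂ := fun n => c n * ((sc (Real.pi * n * (1 / (4 * q))) : ℝ) : ℂ) with hg
  have hsm : ∀ x : ℝ, Summable (fun n : ℤ => g n * ee n x) := fun x => summable_aux c B hB x _ hh
  set D : ℤ → ℂ := fun n => ∑ j ∈ range q, ee (n - N) ((j + δ) / q) with hD
  have hDn : ∀ n, ‖D n‖ = if (q : ℤ) ∣ (n - N) then (q : ℝ) else 0 := fun n => geom_pts q hq δ (n - N)
  have hgD : ∀ n, g n * D n = ∑ j ∈ range q, (g n * ee n ((j + δ) / q)) * ee (-N) ((j + δ) / q) := by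
    intro n
    simp only [hD]
    rw [mul_sum]
    apply Finset.sum_congr rfl
    intro j _
    rw [ee_sub]
    ring
  have hsD : Summable (fun n => g n * D n) := by
    have : (fun n => g n * D n) = fun n => ∑ j ∈ range q, (g n * ee n ((j + δ) / q)) * ee (-N) ((j + δ) / q) :=
      funext hgD
    rw [this]
    exact summable_sum fun j _ => (hsm _).mul_right _
  have hzero : ∑' n, g n * D n = 0 := by
    simp_rw [hgD]
    rw [Summable.tsum_finsetSum fun j _ => (hsm _).mul_right _]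
    apply Finset.sum_eq_zero
    intro j hj
    rw [tsum_mul_right]
    have := h j (mem_range.mp hj)
    simp only [hg]
    rw [this, zero_mul]
  -- isolate N
  have hsplit := hsD.tsum_eq_add_tsum_ite N
  rw [hzero] at hsplit
  have hDN : ‖D N‖ = q := by rw [hDn]; simp
  -- bound the rest via the parametrisation N + m q
  have hbd : ∀ m : ℤ, ‖(if N + m * q = N then 0 else g (N + m * q) * D (N + m * q))‖ ≤ (7 * ε * q) * (1 / (m : ℝ) ^ 2) := by
    intro m
    split_ifs with hm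
    · rw [norm_zero]; positivity
    · have hm0 : m ≠ 0 := by
        rintro rfl
        simp at hm
      have hm1 : (1 : ℝ) ≤ |(m : ℝ)| := by
        have := Int.one_le_abs hm0
        exact_mod_cast this
      have hmr : (m : ℝ) ≠ 0 := by exact_mod_cast hm0
      have habs : |(m : ℝ)| * q / 2 ≤ |((N + m * q : ℤ) : ℝ)| := by
        have h1 : |(m : ℝ) * q| ≤ |((N + m * q : ℤ) : ℝ)| + |(N : ℝ)| := by
          have := abs_sub ((N + m * q : ℤ) : ℝ) (N : ℝ)
          have e : ((N + m * q : ℤ) : ℝ) - N = m * q := by push_cast; ring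
          rwa [e] at this
        rw [abs_mul, abs_of_pos hq0] at h1
        nlinarith
      have hcn : ‖c (N + m * q)‖ ≤ ε := by
        apply hc
        have h1 : (q : ℝ) ≤ 2 * |((N + m * q : ℤ) : ℝ)| := by nlinarith
        have h2 : (((N + m * q : ℤ).natAbs : ℕ) : ℝ) = |((N + m * q : ℤ) : ℝ)| := by
          rw [Nat.cast_natAbs, Int.cast_abs]
        rw [← h2] at h1
        exact_mod_cast h1
      have hDb : ‖D (N + m * q)‖ ≤ q := by
        rw [hDn]
        split_ifs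
        · exact le_refl _
        · exact hq0.le
      have hne : ((N + m * q : ℤ) : ℝ) ≠ 0 := by
        intro h0
        rw [h0, abs_zero] at habs
        have : 0 < |(m : ℝ)| * q / 2 := by positivity
        linarith
      have hsc : sc (Real.pi * ((N + m * q : ℤ) : ℝ) * (1 / (4 * q))) ≤ 7 * (1 / (m : ℝ) ^ 2) := by
        have hp := Real.pi_gt_three
        have ht : Real.pi * ((N + m * q : ℤ) : ℝ) * (1 / (4 * q)) ≠ 0 := by
          have := Real.pi_ne_zero
          positivity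
        refine (sc_le _ ht).trans ?_
        have h1 : (Real.pi * ((N + m * q : ℤ) : ℝ) * (1 / (4 * q))) ^ 2 =
            Real.pi ^ 2 * |((N + m * q : ℤ) : ℝ)| ^ 2 / (16 * q ^ 2) := by
          rw [sq_abs]; field_simp; ring
        rw [h1]
        have h2 : (|(m : ℝ)| * q / 2) ^ 2 ≤ |((N + m * q : ℤ) : ℝ)| ^ 2 := pow_le_pow_left₀ (by positivity) habs 2
        have hpi2 : (9.8596 : ℝ) ≤ Real.pi ^ 2 := by
          have := Real.pi_gt_d2
          nlinarith
        have h3 : (m : ℝ) ^ 2 / 7 ≤ Real.pi ^ 2 * |((N + m * q : ℤ) : ℝ)| ^ 2 / (16 * q ^ 2) := by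
          rw [div_le_div_iff₀ (by norm_num) (by positivity)]
          have h4 : (|(m : ℝ)| * q / 2) ^ 2 = (m : ℝ) ^ 2 * q ^ 2 / 4 := by
            rw [div_pow, mul_pow, sq_abs]; norm_num
          rw [h4] at h2
          have h5 : 0 ≤ (m : ℝ) ^ 2 * q ^ 2 := by positivity
          have h6 : 0 ≤ |((N + m * q : ℤ) : ℝ)| ^ 2 := by positivity
          nlinarith
        have h7 : 0 < (m : ℝ) ^ 2 / 7 := by positivity
        calc 1 / (Real.pi ^ 2 * |((N + m * q : ℤ) : ℝ)| ^ 2 / (16 * q ^ 2)) ≤ 1 / ((m : ℝ) ^ 2 / 7) :=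
              one_div_le_one_div_of_le h7 h3
          _ = 7 * (1 / (m : ℝ) ^ 2) := by field_simp
      rw [norm_mul]
      simp only [hg]
      rw [norm_mul, Complex.norm_real, Real.norm_eq_abs, abs_of_nonneg (sc_nonneg _)]
      calc ‖c (N + m * q)‖ * sc (Real.pi * ((N + m * q : ℤ) : ℝ) * (1 / (4 * q))) * ‖D (N + m * q)‖
          ≤ ε * (7 * (1 / (m : ℝ) ^ 2)) * q := by
            apply mul_le_mul _ hDb (norm_nonneg _) (by positivity)
            exact mul_le_mul hcn hsc (sc_nonneg _) hε.le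
        _ = _ := by ring
  have hinj : Function.Injective (fun m : ℤ => N + m * (q : ℤ)) := by
    intro a b hab
    simp only [add_right_inj] at hab
    have hq' : (q : ℤ) ≠ 0 := by exact_mod_cast hq.ne'
    exact mul_right_cancel₀ hq' hab
  have hsupp : Function.support (fun n : ℤ => if n = N then (0 : ℂ) else g n * D n) ⊆
      Set.range (fun m : ℤ => N + m * (q : ℤ)) := by
    intro n hn
    rw [Function.mem_support] at hn
    split_ifs at hn with h1
    · exact absurd rfl hn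
    · have h2 : D n ≠ 0 := fun h0 => hn (by rw [h0, mul_zero])
      have h3 := hDn n
      split_ifs at h3 with h4
      · obtain ⟨m, hm⟩ := h4
        refine ⟨m, ?_⟩
        simp only
        rw [mul_comm m]
        omega
      · exact absurd (norm_eq_zero.mp h3) h2
  have htsum : ∑' m : ℤ, (if N + m * (q : ℤ) = N then (0 : ℂ) else g (N + m * q) * D (N + m * q)) =
      ∑' n : ℤ, if n = N then (0 : ℂ) else g n * D n := hinj.tsum_eq hsupp
  have hsz : Summable (fun m : ℤ => (7 * ε * q) * (1 / (m : ℝ) ^ 2)) :=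
    (Real.summable_one_div_int_pow.mpr (by norm_num)).mul_left _
  have hrest : ‖∑' n : ℤ, if n = N then (0 : ℂ) else g n * D n‖ ≤ (7 * ε * q) * ∑' m : ℤ, 1 / (m : ℝ) ^ 2 := by
    rw [← htsum, ← tsum_mul_left]
    exact tsum_of_norm_bounded hsz.hasSum hbd
  have hgN : g N * D N = - ∑' n : ℤ, if n = N then (0 : ℂ) else g n * D n := by
    rw [eq_neg_iff_add_eq_zero, ← hsplit]
  have hfin : ‖g N‖ * q ≤ (7 * ε * q) * ∑' m : ℤ, 1 / (m : ℝ) ^ 2 := by
    rw [← hDN, ← norm_mul, hgN, norm_neg, hDN]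
    exact hrest
  have hgn : ‖g N‖ = ‖c N‖ * sc (Real.pi * N * (1 / (4 * q))) := by
    simp only [hg]
    rw [norm_mul, Complex.norm_real, Real.norm_eq_abs, abs_of_nonneg (sc_nonneg _)]
  rw [← hgn]
  have : ‖g N‖ * q ≤ (7 * ε * ∑' m : ℤ, 1 / (m : ℝ) ^ 2) * q := by linarith
  exact le_of_mul_le_mul_right this hq0

/-- the complement intervals -/
lemma in_gap (K : Set ℝ) (σ : ℝ) (δ : ℝ) (hσ : (σ = 1 ∧ δ = 3 / 4) ∨ (σ = -1 ∧ δ = 1 / 4)) (q : ℕ) (hq : 0 < q)
    (hK : ∀ x ∈ K, 0 ≤ σ * Real.sin (2 * Real.pi * q * x)) (j : ℕ) (x : ℝ)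
    (hx : |x - (j + δ) / q| < 1 / (4 * q)) : ∀ m : ℤ, x + m ∉ K := by
  intro m hm
  have hq0 : (0 : ℝ) < q := by exact_mod_cast hq
  have h1 := hK _ hm
  set θ := 2 * Real.pi * q * (x - (j + δ) / q) with hθ
  have e1 : 2 * Real.pi * q * (x + m) = (2 * Real.pi * δ + θ) + ((j + q * m : ℤ) : ℝ) * (2 * Real.pi) := by
    rw [hθ]
    push_cast
    field_simp
    ring
  rw [e1, Real.sin_add_int_mul_two_pi] at h1
  have hθ2 : |θ| < Real.pi / 2 := by
    rw [hθ, abs_mul, abs_of_pos (by positivity : 0 < 2 * Real.pi * q)]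
    calc 2 * Real.pi * q * |x - (j + δ) / q| < 2 * Real.pi * q * (1 / (4 * q)) :=
          mul_lt_mul_of_pos_left hx (by positivity)
      _ = Real.pi / 2 := by field_simp; ring
  have hcos : 0 < Real.cos θ := Real.cos_pos_of_mem_Ioo (abs_lt.mp hθ2)
  rcases hσ with ⟨h2, h3⟩ | ⟨h2, h3⟩
  · have e2 : Real.sin (2 * Real.pi * δ + θ) = - Real.cos θ := by
      rw [h3]
      have : 2 * Real.pi * (3 / 4) + θ = θ + Real.pi / 2 + Real.pi := by ring
      rw [this, Real.sin_add_pi, Real.sin_add_pi_div_two]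
    rw [e2, h2] at h1
    linarith
  · have e2 : Real.sin (2 * Real.pi * δ + θ) = Real.cos θ := by
      rw [h3]
      have : 2 * Real.pi * (1 / 4) + θ = θ + Real.pi / 2 := by ring
      rw [this, Real.sin_add_pi_div_two]
    rw [e2, h2] at h1
    linarith

/-- **uniqueness for these `H`-sets** -/
theorem uniqueness (K : Set ℝ) (σ : ℝ) (hσ : σ = 1 ∨ σ = -1)
    (hK : ∀ n₀ : ℕ, ∃ m ≥ n₀, ∀ x ∈ K, 0 ≤ σ * Real.sin (2 * Real.pi * ((2 ^ m : ℕ) : ℝ) * x))
    (c : ℤ → ℂ) (hc : ∀ x : ℝ, (∀ m : ℤ, x + (m : ℝ) ∉ K) → Tendsto (SS c x) atTop (𝓝 0)) (N : ℤ) : c N = 0 := by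
  obtain ⟨δ, hδ⟩ : ∃ δ : ℝ, (σ = 1 ∧ δ = 3 / 4) ∨ (σ = -1 ∧ δ = 1 / 4) := by
    rcases hσ with h | h
    · exact ⟨3 / 4, Or.inl ⟨h, rfl⟩⟩
    · exact ⟨1 / 4, Or.inr ⟨h, rfl⟩⟩
  -- coefficients tend to zero
  have hCL : ∀ ε : ℝ, 0 < ε → ∃ n₀ : ℕ, ∀ n : ℤ, n₀ ≤ n.natAbs → ‖c n‖ ≤ ε := by
    obtain ⟨m, -, hm⟩ := hK 0
    have hq0 : (0 : ℝ) < ((2 ^ m : ℕ) : ℝ) := by positivity
    have h8 : 1 / (8 * ((2 ^ m : ℕ) : ℝ)) < 1 / (4 * ((2 ^ m : ℕ) : ℝ)) := by
      apply one_div_lt_one_div_of_lt (by positivity)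
      linarith
    apply cantor_lebesgue c ((0 + δ) / ((2 ^ m : ℕ) : ℝ) - 1 / (8 * ((2 ^ m : ℕ) : ℝ)))
      ((0 + δ) / ((2 ^ m : ℕ) : ℝ) + 1 / (8 * ((2 ^ m : ℕ) : ℝ)))
    · have : 0 < 1 / (8 * ((2 ^ m : ℕ) : ℝ)) := by positivity
      linarith
    · intro x hx
      apply hc
      apply in_gap K σ δ hδ (2 ^ m) (by positivity) hm 0 x
      rw [Nat.cast_zero]
      refine lt_of_le_of_lt ?_ h8
      rw [abs_le]
      constructor <;> linarith [hx.1, hx.2]
  obtain ⟨B, hB⟩ : ∃ B : ℝ, ∀ n, ‖c n‖ ≤ B := by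
    obtain ⟨n₀, hn₀⟩ := hCL 1 one_pos
    refine ⟨1 + ∑ n ∈ Finset.Icc (-(n₀ : ℤ)) n₀, ‖c n‖, fun n => ?_⟩
    have h0 : 0 ≤ ∑ n ∈ Finset.Icc (-(n₀ : ℤ)) n₀, ‖c n‖ := Finset.sum_nonneg fun _ _ => norm_nonneg _
    by_cases hn : n₀ ≤ n.natAbs
    · linarith [hn₀ n hn]
    · have : n ∈ Finset.Icc (-(n₀ : ℤ)) n₀ := by rw [mem_Icc]; omega
      have h1 : ‖c n‖ ≤ ∑ n ∈ Finset.Icc (-(n₀ : ℤ)) n₀, ‖c n‖ :=
        Finset.single_le_sum (f := fun n => ‖c n‖) (fun _ _ => norm_nonneg _) this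
      linarith
  -- the key bound
  set Z := ∑' m : ℤ, 1 / (m : ℝ) ^ 2 with hZ
  have hZ0 : 0 ≤ Z := tsum_nonneg fun m => by positivity
  have key : ∀ ε : ℝ, 0 < ε → ‖c N‖ ≤ 14 * ε * Z := by
    intro ε hε
    obtain ⟨n₀, hn₀⟩ := hCL ε hε
    -- sinc^2 close to 1
    have hlim : Tendsto (fun m : ℕ => sc (Real.pi * N * (1 / (4 * ((2 ^ m : ℕ) : ℝ))))) atTop (𝓝 1) := by
      have h1 : Tendsto (fun m : ℕ => Real.pi * N * (1 / (4 * ((2 ^ m : ℕ) : ℝ)))) atTop (𝓝 0) := by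
        have h2 : Tendsto (fun m : ℕ => (1 / 2 : ℝ) ^ m) atTop (𝓝 0) :=
          tendsto_pow_atTop_nhds_zero_of_lt_one (by norm_num) (by norm_num)
        have h3 := h2.const_mul (Real.pi * N / 4)
        rw [mul_zero] at h3
        refine h3.congr fun m => ?_
        push_cast
        rw [one_div_pow]
        field_simp
      have := (sc_cont.tendsto 0).comp h1
      rw [sc_zero] at this
      exact this
    have hev := hlim.eventually (lt_mem_nhds (by norm_num : (1 / 2 : ℝ) < 1))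
    obtain ⟨m₁, hm₁⟩ := eventually_atTop.mp hev
    obtain ⟨m, hm, hmK⟩ := hK (max m₁ (max (2 * n₀) (2 * N.natAbs)))
    have hm1 : m₁ ≤ m := (le_max_left _ _).trans hm
    have hm2 : 2 * n₀ ≤ m := (le_max_left _ _).trans ((le_max_right _ _).trans hm)
    have hm3 : 2 * N.natAbs ≤ m := (le_max_right _ _).trans ((le_max_right _ _).trans hm)
    have hmq : m < 2 ^ m := Nat.lt_two_pow_self
    have hq0 : (0 : ℝ) < ((2 ^ m : ℕ) : ℝ) := by positivity
    have hF : ∀ j : ℕ, j < 2 ^ m → ∑' n : ℤ, c n * ((sc (Real.pi * n * (1 / (4 * ((2 ^ m : ℕ) : ℝ)))) : ℝ) : ℂ) *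
        ee n ((j + δ) / ((2 ^ m : ℕ) : ℝ)) = 0 := by
      intro j _
      set xj : ℝ := (j + δ) / ((2 ^ m : ℕ) : ℝ) with hxj
      set h₁ : ℝ := 1 / (4 * ((2 ^ m : ℕ) : ℝ)) with hh₁
      have hh0 : 0 < h₁ := by rw [hh₁]; positivity
      have hs := schwarz_complex (FF c) (FF_cont c B hB) (xj - h₁) (xj + h₁) (by linarith) (by
        intro x hx
        have hx2 : |x - xj| < 1 / (4 * ((2 ^ m : ℕ) : ℝ)) := by
          rw [← hh₁, abs_lt]
          constructor <;> linarith [hx.1, hx.2]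
        have hconv := hc x (in_gap K σ δ hδ (2 ^ m) (by positivity) hmK j x hx2)
        have hr := riemann c B hB x hconv
        refine hr.congr' ?_
        filter_upwards [self_mem_nhdsWithin] with t ht
        rw [Set.mem_Ioi] at ht
        rw [FF_diff c B hB x t ht.ne']
        have : (t : ℂ) ^ 2 ≠ 0 := pow_ne_zero 2 (by exact_mod_cast ht.ne')
        rw [mul_div_cancel_left₀ _ this])
      have hmid : (xj - h₁ + (xj + h₁)) / 2 = xj := by ring
      rw [hmid, add_comm (FF c (xj - h₁)), FF_diff c B hB xj h₁ hh0.ne'] at hs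
      have hhc : ((h₁ : ℝ) : ℂ) ^ 2 ≠ 0 := by
        have : (h₁ : ℂ) ≠ 0 := by exact_mod_cast hh0.ne'
        exact pow_ne_zero 2 this
      exact (mul_eq_zero.mp hs).resolve_left hhc
    have hav := averaging c B hB (2 ^ m) (by positivity) δ N ε hε (by
        have h1 : 2 * N.natAbs ≤ 2 ^ m := by omega
        have h2 : ((N.natAbs : ℕ) : ℝ) = |(N : ℝ)| := by rw [Nat.cast_natAbs, Int.cast_abs]
        rw [← h2]
        exact_mod_cast h1) (by
        intro n hn
        apply hn₀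
        omega) hF
    have hs := hm₁ m hm1
    have hs2 : ‖c N‖ * (1 / 2) ≤ ‖c N‖ * sc (Real.pi * N * (1 / (4 * ((2 ^ m : ℕ) : ℝ)))) :=
      mul_le_mul_of_nonneg_left hs.le (norm_nonneg _)
    rw [← hZ] at hav
    linarith
  by_contra hne
  have hpos : 0 < ‖c N‖ := norm_pos_iff.mpr hne
  have h1 := key (‖c N‖ / (14 * (Z + 1) * 2)) (by positivity)
  have h2 : 14 * (‖c N‖ / (14 * (Z + 1) * 2)) * Z < ‖c N‖ := by
    have : 14 * (‖c N‖ / (14 * (Z + 1) * 2)) * Z = ‖c N‖ * (Z / (2 * (Z + 1))) := by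
      field_simp
    rw [this]
    have h3 : Z / (2 * (Z + 1)) < 1 := by
      rw [div_lt_one (by positivity)]
      linarith
    nlinarith
  linarith

end Pool.Agent.W738.UN
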