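import Mathlib
import Pool.Agent.W738.UN.Coin
import Pool.Agent.W738.UN.Uniq

set_option autoImplicit false

open Filter Topology Finset MeasureTheory
open scoped ENNReal

namespace Pool.Agent.W738.UN

/-- value of a digit block -/
def VL (b : ℕ) (w : ℕ → ℤ) : ℕ → ℤ
  | 0 => 0
  | (k + 1) => b * VL b w k + w k

lemma VL_bounds (b : ℕ) (hb : 2 ≤ b) (w : ℕ → ℤ) (k : ℕ) (hw : ∀ j < k, 0 ≤ w j ∧ w j < b) :
    0 ≤ VL b w k ∧ VL b w k < (b : ℤ) ^ k := by
  induction k with
  | zero => simp [VL]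
  | succ k ih =>
    obtain ⟨h1, h2⟩ := ih fun j hj => hw j (by omega)
    obtain ⟨h3, h4⟩ := hw k (by omega)
    have hb' : (2 : ℤ) ≤ b := by exact_mod_cast hb
    unfold VL
    constructor
    · positivity
    · rw [pow_succ]
      nlinarith

lemma floor_step (b : ℕ) (hb : 2 ≤ b) (x : ℝ) (t : ℕ) :
    ⌊x * (b : ℝ) ^ (t + 1)⌋ = b * ⌊x * (b : ℝ) ^ t⌋ + ⌊x * (b : ℝ) ^ (t + 1)⌋ % (b : ℤ) := by
  have hb' : (0 : ℤ) < b := by exact_mod_cast (by omega : 0 < b)
  have hbr : (0 : ℝ) < b := by exact_mod_cast (by omega : 0 < b)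
  have h1 : ⌊x * (b : ℝ) ^ (t + 1)⌋ / (b : ℤ) = ⌊x * (b : ℝ) ^ t⌋ := by
    have e : x * (b : ℝ) ^ (t + 1) = b * (x * (b : ℝ) ^ t) := by rw [pow_succ]; ring
    rw [e]
    set y := x * (b : ℝ) ^ t
    have f1 := Int.floor_le y
    have f2 := Int.lt_floor_add_one y
    apply le_antisymm
    · apply Int.lt_add_one_iff.mp
      apply Int.ediv_lt_of_lt_mul hb'
      rw [Int.floor_lt]
      push_cast
      nlinarith
    · apply Int.le_ediv_of_mul_le hb'
      rw [Int.le_floor]
      push_cast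
      nlinarith
  have h2 := Int.mul_ediv_add_emod ⌊x * (b : ℝ) ^ (t + 1)⌋ (b : ℤ)
  rw [h1] at h2
  exact h2.symm

lemma digits_iff (b : ℕ) (hb : 2 ≤ b) (x : ℝ) (i : ℕ) (w : ℕ → ℤ) (k : ℕ) (hw : ∀ j < k, 0 ≤ w j ∧ w j < b) :
    (∀ j < k, ⌊x * (b : ℝ) ^ (i + j + 1)⌋ % (b : ℤ) = w j) ↔
      ⌊x * (b : ℝ) ^ (i + k)⌋ % (b : ℤ) ^ k = VL b w k := by
  induction k with
  | zero => simp [VL]
  | succ k ih =>
    have ih' := ih fun j hj => hw j (by omega)
    obtain ⟨h3, h4⟩ := hw k (by omega)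
    have hb' : (0 : ℤ) < b := by exact_mod_cast (by omega : 0 < b)
    have hstep := floor_step b hb x (i + k)
    set A := ⌊x * (b : ℝ) ^ (i + k)⌋ with hA
    have hAdd : i + (k + 1) = i + k + 1 := by ring
    rw [hAdd]
    set A' := ⌊x * (b : ℝ) ^ (i + k + 1)⌋ with hA'
    set d := A' % (b : ℤ) with hd
    have hd0 : 0 ≤ d := Int.emod_nonneg _ hb'.ne'
    have hd1 : d < b := Int.emod_lt_of_pos _ hb'
    have hbk : (0 : ℤ) < (b : ℤ) ^ k := by positivity
    set R := A % (b : ℤ) ^ k with hR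
    have hR0 : 0 ≤ R := Int.emod_nonneg _ hbk.ne'
    have hR1 : R < (b : ℤ) ^ k := Int.emod_lt_of_pos _ hbk
    have hmod : A' % (b : ℤ) ^ (k + 1) = b * R + d := by
      have h5 := Int.mul_ediv_add_emod A ((b : ℤ) ^ k)
      rw [← hR] at h5
      have h6 : A' = (b * R + d) + (b : ℤ) ^ (k + 1) * (A / (b : ℤ) ^ k) := by
        rw [hstep, pow_succ]
        linear_combination (-(b : ℤ)) * h5
      rw [h6, Int.add_mul_emod_self_left]
      apply Int.emod_eq_of_lt
      · positivity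
      · rw [pow_succ]
        nlinarith
    rw [hmod]
    unfold VL
    constructor
    · intro h
      have e1 := ih'.mp fun j hj => h j (by omega)
      have e2 : d = w k := h k (by omega)
      rw [e1, e2]
    · intro h
      obtain ⟨v1, v2⟩ := VL_bounds b hb w k fun j hj => hw j (by omega)
      have e3 : R = VL b w k := by
        have h7 : (b : ℤ) * (R - VL b w k) = w k - d := by linarith
        have h8 : |(b : ℤ) * (R - VL b w k)| < b := by
          rw [h7, abs_lt]
          constructor <;> linarith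
        rw [abs_mul, abs_of_pos hb'] at h8
        have h9 : |R - VL b w k| < 1 := by
          by_contra hc
          push Not at hc
          nlinarith
        have h10 := Int.abs_lt_one_iff.mp h9
        linarith
      have e4 : d = w k := by
        rw [e3] at h
        linarith
      intro j hj
      rcases Nat.lt_succ_iff_lt_or_eq.mp hj with h5 | h5
      · exact ih'.mpr e3 j h5
      · subst h5
        exact e4

/-- the absolutely normal numbers of the statement -/
def NormSet : Set ℝ := {x : ℝ | ∀ b : ℕ, 2 ≤ b → ∀ k : ℕ, ∀ w : Fin k → ℤ,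
            (∀ j : Fin k, 0 ≤ w j ∧ w j < (b:ℤ)) →
            Tendsto (fun N : ℕ =>
              ((((Finset.range N).filter (fun i : ℕ =>
                ∀ j : Fin k, ⌊x * (b:ℝ) ^ (i + j.val + 1)⌋ % (b:ℤ) = w j)).card : ℝ) / (N:ℝ)))
              atTop (𝓝 (1 / (b:ℝ) ^ k))}

open Pool.Agent.W28.NR in
lemma mem_normSet (x : ℝ) (h : ∀ b : ℕ, 2 ≤ b → NormalBase b x) : x ∈ NormSet := by
  intro b hb k w hw
  set w' : ℕ → ℤ := fun j => if hj : j < k then w ⟨j, hj⟩ else 0 with hw'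
  have hwb : ∀ j < k, 0 ≤ w' j ∧ w' j < b := by
    intro j hj
    simp only [hw', dif_pos hj]
    exact hw ⟨j, hj⟩
  have hiff : ∀ i : ℕ, (∀ j : Fin k, ⌊x * (b:ℝ) ^ (i + j.val + 1)⌋ % (b:ℤ) = w j) ↔
      ⌊(b : ℝ) ^ (i + k) * x⌋ % (b : ℤ) ^ k = VL b w' k := by
    intro i
    rw [mul_comm, ← digits_iff b hb x i w' k hwb]
    constructor
    · intro h1 j hj
      have := h1 ⟨j, hj⟩
      simp only [hw', dif_pos hj]
      exact this
    · intro h1 j
      have := h1 j.1 j.2
      simp only [hw', dif_pos j.2] at this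
      exact this
  rcases Nat.eq_zero_or_pos k with hk | hk
  · subst hk
    simp only [pow_zero, div_one]
    apply tendsto_const_nhds.congr'
    filter_upwards [eventually_ge_atTop 1] with N hN
    have h1 : (Finset.range N).filter (fun i : ℕ =>
        ∀ j : Fin 0, ⌊x * (b:ℝ) ^ (i + j.val + 1)⌋ % (b:ℤ) = w j) = Finset.range N := by
      apply Finset.filter_true_of_mem
      intro i _ j
      exact j.elim0
    rw [h1, card_range, div_self]
    exact_mod_cast (by omega : N ≠ 0)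
  · obtain ⟨v1, v2⟩ := VL_bounds b hb w' k hwb
    refine (h b hb k hk (VL b w' k) v1 v2).congr fun N => ?_
    congr 2
    apply congrArg
    apply Finset.filter_congr
    intro i _
    exact (hiff i).symm

/-- sign of a digit -/
def sg (x : Fin 2) : ℝ := if x = 0 then 1 else -1

/-- the set -/
def KK (M : ℕ → Bool) (a : Om) : Set ℝ :=
  {x | x ∈ Set.Icc (0:ℝ) 1 ∧ ∀ i, M i = true → 0 ≤ sg (a i) * Real.sin (2 * Real.pi * ((2 ^ i : ℕ) : ℝ) * x)}

lemma KK_closed (M : ℕ → Bool) (a : Om) : IsClosed (KK M a) := by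
  have : KK M a = Set.Icc (0:ℝ) 1 ∩ ⋂ i : ℕ, ⋂ (_ : M i = true),
      {x | 0 ≤ sg (a i) * Real.sin (2 * Real.pi * ((2 ^ i : ℕ) : ℝ) * x)} := by
    ext x
    simp [KK]
  rw [this]
  apply isClosed_Icc.inter
  apply isClosed_iInter
  intro i
  apply isClosed_iInter
  intro _
  exact isClosed_le continuous_const (by fun_prop)

lemma mem_KK (M : ℕ → Bool) (a c : Om) : Real.ofDigits (mix M (a, c)) ∈ KK M a := by
  refine ⟨⟨Real.ofDigits_nonneg _, Real.ofDigits_le_one _⟩, fun i hi => ?_⟩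
  set e := mix M (a, c) with he
  have h1 := pow_mul_ofDigits i e
  have h2 := pow_mul_ofDigits 1 (fun j => e (j + i))
  set τ := Real.ofDigits (fun j => (fun j => e (j + i)) (j + 1)) with hτ
  have h3 : 0 ≤ τ := Real.ofDigits_nonneg _
  have h4 : τ ≤ 1 := Real.ofDigits_le_one _
  have h5 : pre 1 (fun j => e (j + i)) = (a i : ℕ) := by
    simp only [pre, he, mix]
    simp [hi]
  rw [h5] at h2
  have h6 : 2 * Real.pi * ((2 ^ i : ℕ) : ℝ) * Real.ofDigits e =
      Real.pi * ((a i : ℕ) + τ) + ((pre i e : ℕ) : ℝ) * (2 * Real.pi) := by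
    push_cast
    rw [← h2]
    have : 2 * Real.pi * 2 ^ i * Real.ofDigits e = 2 * Real.pi * (2 ^ i * Real.ofDigits e) := by ring
    rw [this, h1]
    ring
  rw [h6, Real.sin_add_nat_mul_two_pi]
  have hs : 0 ≤ Real.sin (Real.pi * τ) := by
    apply Real.sin_nonneg_of_nonneg_of_le_pi
    · have := Real.pi_pos; positivity
    · have := Real.pi_pos; nlinarith
  unfold sg
  have h7 : a i = 0 ∨ a i = 1 := by
    have : ∀ x : Fin 2, x = 0 ∨ x = 1 := by decide
    exact this _
  rcases h7 with h8 | h8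
  · rw [h8, if_pos rfl]
    simpa using hs
  · rw [h8, if_neg (by decide)]
    have : Real.pi * (((1 : Fin 2) : ℕ) + τ) = Real.pi * τ + Real.pi := by
      simp
      ring
    rw [this, Real.sin_add_pi]
    linarith

lemma KK_unique (M : ℕ → Bool) (hM : ∀ n₀, ∃ m ≥ n₀, M m = true) (a : Om) (c : ℤ → ℂ)
    (hc : ∀ x : ℝ, (∀ m : ℤ, x + (m : ℝ) ∉ KK M a) → Tendsto (SS c x) atTop (𝓝 0)) (N : ℤ) : c N = 0 := by
  by_cases h : ∀ n₀, ∃ m ≥ n₀, M m = true ∧ a m = 0
  · apply uniqueness (KK M a) 1 (Or.inl rfl) _ c hc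
    intro n₀
    obtain ⟨m, hm, h1, h2⟩ := h n₀
    refine ⟨m, hm, fun x hx => ?_⟩
    have := hx.2 m h1
    rw [h2] at this
    simpa [sg] using this
  · push Not at h
    obtain ⟨n₁, hn₁⟩ := h
    apply uniqueness (KK M a) (-1) (Or.inr rfl) _ c hc
    intro n₀
    obtain ⟨m, hm, h1⟩ := hM (max n₀ n₁)
    refine ⟨m, (le_max_left _ _).trans hm, fun x hx => ?_⟩
    have h2 := hn₁ m ((le_max_right _ _).trans hm) h1
    have := hx.2 m h1
    unfold sg at this
    rw [if_neg h2] at this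
    exact this

open Classical in
/-- the digits positions for a gauge -/
lemma exists_positions (φ : ℝ → ℝ) (hpos : ∀ r : ℝ, 0 < r → 0 < φ r)
    (hlim : Tendsto (fun r : ℝ => r / φ r) (𝓝[>] (0:ℝ)) (𝓝 0)) :
    ∃ (M : ℕ → Bool) (n₁ : ℕ), (∀ n₀, ∃ m ≥ n₀, M m = true) ∧
      ∀ n ≥ n₁, ∃ J : ℕ, n ≤ J + #{i ∈ range n | M i = false} ∧
        ∀ d : ℝ, 0 < d → d ≤ (1 / 2 : ℝ) ^ n → 2 ^ J * d ≤ φ d := by
  have hev : ∀ j : ℕ, ∀ᶠ t : ℕ in atTop, ∀ d : ℝ, 0 < d → d ≤ (1 / 2 : ℝ) ^ t → 2 ^ (j + 1) * d ≤ φ d := by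
    intro j
    have h1 : ∀ᶠ r : ℝ in 𝓝[>] (0:ℝ), r / φ r < (1 / 2) ^ (j + 1) :=
      hlim.eventually (gt_mem_nhds (by positivity))
    rw [eventually_nhdsWithin_iff, Metric.eventually_nhds_iff] at h1
    obtain ⟨δ, hδ, h2⟩ := h1
    have h3 : Tendsto (fun t : ℕ => (1 / 2 : ℝ) ^ t) atTop (𝓝 0) :=
      tendsto_pow_atTop_nhds_zero_of_lt_one (by norm_num) (by norm_num)
    filter_upwards [h3.eventually (gt_mem_nhds hδ)] with t ht d hd hdt
    have h4 := h2 (y := d) (by rw [dist_zero_right, Real.norm_of_nonneg hd.le]; linarith) hd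
    rw [div_lt_iff₀ (hpos d hd)] at h4
    have h5 : (2 : ℝ) ^ (j + 1) * (1 / 2) ^ (j + 1) = 1 := by rw [← mul_pow]; norm_num
    have h6 : (2 : ℝ) ^ (j + 1) * d ≤ 2 ^ (j + 1) * ((1 / 2) ^ (j + 1) * φ d) :=
      mul_le_mul_of_nonneg_left h4.le (by positivity)
    rw [← mul_assoc, h5, one_mul] at h6
    exact h6
  obtain ⟨m, hmono, hm⟩ := extraction_forall_of_eventually hev
  refine ⟨fun i => decide (∃ j, m j = i), m 0 + 1, ?_, ?_⟩
  · intro n₀
    exact ⟨m n₀, hmono.id_le n₀, by simp⟩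
  · intro n hn
    set J := #{j ∈ range n | m j < n} with hJ
    have hcount : #{i ∈ range n | (decide (∃ j, m j = i)) = true} ≤ J := by
      have hsub : {i ∈ range n | (decide (∃ j, m j = i)) = true} ⊆ ({j ∈ range n | m j < n}).image m := by
        intro i hi
        rw [mem_filter, mem_range, decide_eq_true_eq] at hi
        obtain ⟨h1, j, rfl⟩ := hi
        rw [mem_image]
        refine ⟨j, ?_, rfl⟩
        rw [mem_filter, mem_range]
        exact ⟨lt_of_le_of_lt (hmono.id_le j) h1, h1⟩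
      exact (Finset.card_le_card hsub).trans Finset.card_image_le
    have hJ1 : 1 ≤ J := by
      rw [hJ]
      apply Finset.card_pos.mpr
      refine ⟨0, ?_⟩
      rw [mem_filter, mem_range]
      omega
    have hmJ : m (J - 1) < n := by
      by_contra hc
      push Not at hc
      have hsub : {j ∈ range n | m j < n} ⊆ range (J - 1) := by
        intro j hj
        rw [mem_filter] at hj
        rw [mem_range]
        exact hmono.lt_iff_lt.mp (lt_of_lt_of_le hj.2 hc)
      have := Finset.card_le_card hsub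
      rw [card_range, ← hJ] at this
      omega
    refine ⟨J, ?_, ?_⟩
    · have h1 : #{i ∈ range n | (decide (∃ j, m j = i)) = true} + #{i ∈ range n | ¬ (decide (∃ j, m j = i)) = true} = #(range n) :=
        Finset.card_filter_add_card_filter_not _
      rw [card_range] at h1
      have h2 : {i ∈ range n | ¬ (decide (∃ j, m j = i)) = true} = {i ∈ range n | (decide (∃ j, m j = i)) = false} := by
        apply Finset.filter_congr
        intro i _
        simp
      rw [h2] at h1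
      show n ≤ J + #{i ∈ range n | (decide (∃ j, m j = i)) = false}
      omega
    · intro d hd hdn
      have := hm (J - 1) d hd (hdn.trans (pow_le_pow_of_le_one (by norm_num) (by norm_num) hmJ.le))
      rwa [Nat.sub_add_cancel hJ1] at this

theorem main (φ : ℝ → ℝ) (hpos : ∀ r : ℝ, 0 < r → 0 < φ r)
    (hcont : Tendsto φ (𝓝[>] (0:ℝ)) (𝓝 0))
    (hlim : Tendsto (fun r : ℝ => r / φ r) (𝓝[>] (0:ℝ)) (𝓝 0)) :
    ∃ K : Set ℝ, IsClosed K ∧ K ⊆ Set.Icc (0:ℝ) 1 ∧
      (∀ c : ℤ → ℂ, (∀ x : ℝ, (∀ m : ℤ, x + (m:ℝ) ∉ K) → Tendsto (SS c x) atTop (𝓝 0)) → ∀ n : ℤ, c n = 0) ∧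
      0 < Measure.mkMetric (fun r : ℝ≥0∞ => ENNReal.ofReal (φ r.toReal)) (K ∩ NormSet) := by
  classical
  obtain ⟨M, n₁, hM1, hM2⟩ := exists_positions φ hpos hlim
  obtain ⟨a, ha⟩ := exists_digits M
  refine ⟨KK M a, KK_closed M a, fun x hx => hx.1, fun c hc n => KK_unique M hM1 a c hc n, ?_⟩
  set f : Om → ℝ := fun c => Real.ofDigits (mix M (a, c)) with hf
  have hfm : Measurable f := ofDigits_meas.comp ((mix_meas M).comp (measurable_const.prodMk measurable_id))
  set ν := PP.map f with hν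
  -- mass bounds
  have hmass : ∀ n ≥ n₁, ∀ s : Set ℝ, (∀ x ∈ s, ∀ y ∈ s, |x - y| ≤ (1 / 2 : ℝ) ^ n) →
      ∀ d : ℝ, 0 < d → d ≤ (1 / 2 : ℝ) ^ n → (1 / 2 : ℝ) ^ (n + 1) ≤ d → PP (f ⁻¹' s) ≤ ENNReal.ofReal (8 * φ d) := by
    intro n hn s hs d hd0 hd1 hd2
    obtain ⟨J, hJ1, hJ2⟩ := hM2 n hn
    refine (small_mass M a n s hs).trans ?_
    have h1 : (4 : ℝ≥0∞) * (2⁻¹ : ℝ≥0∞) ^ #{i ∈ range n | M i = false} =
        ENNReal.ofReal (4 * (1 / 2 : ℝ) ^ #{i ∈ range n | M i = false}) := by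
      rw [ENNReal.ofReal_mul (by norm_num), ENNReal.ofReal_pow (by norm_num), one_div,
        ENNReal.ofReal_inv_of_pos (by norm_num)]
      norm_num
    rw [h1]
    apply ENNReal.ofReal_le_ofReal
    have h2 := hJ2 d hd0 hd1
    have h3 : (1 / 2 : ℝ) ^ #{i ∈ range n | M i = false} ≤ 2 ^ J * (1 / 2 : ℝ) ^ n := by
      calc (1 / 2 : ℝ) ^ #{i ∈ range n | M i = false} = 2 ^ J * ((1 / 2 : ℝ) ^ J * (1 / 2 : ℝ) ^ #{i ∈ range n | M i = false}) := by
            rw [← mul_assoc, ← mul_pow]; norm_num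
        _ = 2 ^ J * (1 / 2 : ℝ) ^ (J + #{i ∈ range n | M i = false}) := by rw [← pow_add]
        _ ≤ 2 ^ J * (1 / 2 : ℝ) ^ n := by
            apply mul_le_mul_of_nonneg_left _ (by positivity)
            exact pow_le_pow_of_le_one (by norm_num) (by norm_num) hJ1
    have h4 : (1 / 2 : ℝ) ^ n ≤ 2 * d := by
      rw [pow_succ] at hd2
      linarith
    have h5 : (2 : ℝ) ^ J * (1 / 2 : ℝ) ^ n ≤ 2 ^ J * (2 * d) := mul_le_mul_of_nonneg_left h4 (by positivity)
    nlinarith
  have hkey : (8 : ℝ≥0∞)⁻¹ • ν ≤ Measure.mkMetric (fun r : ℝ≥0∞ => ENNReal.ofReal (φ r.toReal)) := by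
    apply Measure.le_mkMetric _ _ (ENNReal.ofReal ((1 / 2 : ℝ) ^ (n₁ + 1))) (by rw [ENNReal.ofReal_pos]; positivity)
    intro s hs
    have hfin : Metric.ediam s ≠ ⊤ := ne_top_of_le_ne_top ENNReal.ofReal_ne_top hs
    set d := (Metric.ediam s).toReal with hd
    have hd0 : 0 ≤ d := ENNReal.toReal_nonneg
    have hd1 : d ≤ (1 / 2 : ℝ) ^ (n₁ + 1) := by
      rw [hd]
      exact ENNReal.toReal_le_of_le_ofReal (by positivity) hs
    have hdist : ∀ x ∈ closure s, ∀ y ∈ closure s, |x - y| ≤ d := by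
      intro x hx y hy
      have h1 : edist x y ≤ Metric.ediam (closure s) := Metric.edist_le_ediam_of_mem hx hy
      rw [Metric.ediam_closure] at h1
      have h2 := ENNReal.toReal_mono hfin h1
      rw [edist_dist, ENNReal.toReal_ofReal dist_nonneg, Real.dist_eq] at h2
      exact h2
    have hν : ν s ≤ PP (f ⁻¹' (closure s)) := by
      calc ν s ≤ ν (closure s) := measure_mono subset_closure
        _ = PP (f ⁻¹' (closure s)) := Measure.map_apply hfm isClosed_closure.measurableSet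
    rw [Measure.smul_apply, smul_eq_mul]
    rcases hd0.eq_or_lt with h0 | h0
    · -- degenerate
      have hz : PP (f ⁻¹' (closure s)) = 0 := by
        apply le_antisymm _ (zero_le)
        have hlimφ : Tendsto (fun n : ℕ => ENNReal.ofReal (8 * φ ((1 / 2 : ℝ) ^ n))) atTop (𝓝 0) := by
          have h3 : Tendsto (fun t : ℕ => (1 / 2 : ℝ) ^ t) atTop (𝓝[>] 0) := by
            rw [tendsto_nhdsWithin_iff]
            exact ⟨tendsto_pow_atTop_nhds_zero_of_lt_one (by norm_num) (by norm_num),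
              Eventually.of_forall fun t => by rw [Set.mem_Ioi]; positivity⟩
          have h4 := (hcont.comp h3).const_mul 8
          rw [mul_zero] at h4
          have h5 := ENNReal.tendsto_ofReal h4
          rw [ENNReal.ofReal_zero] at h5
          exact h5
        apply ge_of_tendsto hlimφ
        filter_upwards [eventually_ge_atTop n₁] with n hn
        apply hmass n hn (closure s) _ _ (by positivity) le_rfl
          (pow_le_pow_of_le_one (by norm_num) (by norm_num) (by omega))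
        intro x hx y hy
        refine (hdist x hx y hy).trans ?_
        rw [← h0]
        positivity
      have : ν s = 0 := le_antisymm (hν.trans hz.le) zero_le
      rw [this, mul_zero]
      exact zero_le
    · obtain ⟨n, hn1, hn2⟩ := exists_nat_pow_near_of_lt_one h0
        (hd1.trans (pow_le_one₀ (by norm_num) (by norm_num))) (by norm_num : (0:ℝ) < 1 / 2) (by norm_num)
      have hn : n₁ ≤ n := by
        by_contra hc
        push Not at hc
        have h1 : (1 / 2 : ℝ) ^ (n₁ + 1) ≤ (1 / 2 : ℝ) ^ (n + 1) :=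
          pow_le_pow_of_le_one (by norm_num) (by norm_num) (by omega)
        linarith
      have h1 := hmass n hn (closure s) (fun x hx y hy => (hdist x hx y hy).trans hn2) d h0 hn2 hn1.le
      have h2 := hν.trans h1
      calc (8 : ℝ≥0∞)⁻¹ * ν s ≤ 8⁻¹ * ENNReal.ofReal (8 * φ d) := by gcongr
        _ = ENNReal.ofReal (φ d) := by
            rw [ENNReal.ofReal_mul (by norm_num), ← mul_assoc]
            have : (8 : ℝ≥0∞)⁻¹ * ENNReal.ofReal 8 = 1 := by
              rw [show ENNReal.ofReal 8 = 8 by norm_num]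
              exact ENNReal.inv_mul_cancel (by norm_num) (by norm_num)
            rw [this, one_mul]
  refine lt_of_lt_of_le ?_ (hkey (KK M a ∩ NormSet))
  rw [Measure.smul_apply, smul_eq_mul]
  apply ENNReal.mul_pos
  · simp
  · have h1 : PP (f ⁻¹' (KK M a ∩ NormSet)) = 1 := by
      have h2 : f ⁻¹' (KK M a ∩ NormSet) =ᵐ[PP] Set.univ := by
        rw [ae_eq_univ]
        have h3 : ∀ᵐ c ∂PP, c ∈ f ⁻¹' (KK M a ∩ NormSet) := by
          filter_upwards [ha] with c hc
          exact ⟨mem_KK M a c, mem_normSet _ hc⟩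
        exact h3
      rw [measure_congr h2, measure_univ]
    have h2 := Measure.le_map_apply hfm.aemeasurable (μ := PP) (KK M a ∩ NormSet)
    rw [h1] at h2
    intro h3
    rw [← hν, h3] at h2
    simp at h2

end Pool.Agent.W738.UN
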